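import Mathlib

/-!
A basis for a finitely generated multiplicative group modulo a subfield.
-/

set_option autoImplicit false
set_option linter.unusedSectionVars false

namespace Pool.Agent.D0H85.SP

variable {E : Type} [Field E] {κ : Type} [Fintype κ]

/-- the product of powers -/
def pw (U : κ → E) (a : κ → ℤ) : E := ∏ j, U j ^ a j

variable (U : κ → E) (hU : ∀ j, U j ≠ 0)

include hU

theorem pw_ne (a : κ → ℤ) : pw U a ≠ 0 :=
  Finset.prod_ne_zero_iff.2 fun j _ => zpow_ne_zero _ (hU j)

theorem pw_add (a b : κ → ℤ) : pw U (a + b) = pw U a * pw U b := by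
  unfold pw
  rw [← Finset.prod_mul_distrib]
  exact Finset.prod_congr rfl fun j _ => zpow_add₀ (hU j) _ _

theorem pw_neg (a : κ → ℤ) : pw U (-a) = (pw U a)⁻¹ := by
  unfold pw
  rw [← Finset.prod_inv_distrib]
  exact Finset.prod_congr rfl fun j _ => zpow_neg _ _

theorem pw_zero : pw U 0 = 1 := by
  unfold pw
  simp

theorem pw_zsmul (n : ℤ) (a : κ → ℤ) : pw U (n • a) = pw U a ^ n := by
  unfold pw
  rw [← Finset.prod_zpow]
  refine Finset.prod_congr rfl fun j _ => ?_
  rw [Pi.smul_apply, smul_eq_mul, mul_comm, zpow_mul]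

theorem pw_sum {ι : Type} (s : Finset ι) (f : ι → κ → ℤ) :
    pw U (∑ i ∈ s, f i) = ∏ i ∈ s, pw U (f i) := by
  classical
  induction s using Finset.induction_on with
  | empty => simp [pw_zero U hU]
  | insert a s ha ih => rw [Finset.sum_insert ha, Finset.prod_insert ha, pw_add U hU, ih]

theorem pw_single [DecidableEq κ] (j : κ) : pw U (Pi.single j 1) = U j := by
  unfold pw
  rw [Finset.prod_eq_single j]
  · rw [Pi.single_eq_same, zpow_one]
  · intro i _ hi
    rw [Pi.single_eq_of_ne hi, zpow_zero]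
  · intro h
    exact absurd (Finset.mem_univ j) h

/-- **A basis of a finitely generated group modulo a subfield.** -/
theorem exists_basis (F0 : Subfield E)
    (htf : ∀ (x : E) (n : ℕ), n ≠ 0 → x ^ n ∈ F0 → x ∈ F0) :
    ∃ (s : ℕ) (b : Fin s → κ → ℤ) (m : κ → Fin s → ℤ),
      (∀ a : Fin s → ℤ, ∏ i, pw U (b i) ^ a i ∈ F0 → a = 0) ∧
      (∀ j, U j / ∏ i, pw U (b i) ^ m j i ∈ F0) := by
  classical
  let N : Submodule ℤ (κ → ℤ) :=
    { carrier := {a | pw U a ∈ F0}
      add_mem' := by
        intro a b ha hb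
        show pw U (a + b) ∈ F0
        rw [pw_add U hU]
        exact F0.mul_mem ha hb
      zero_mem' := by
        show pw U 0 ∈ F0
        rw [pw_zero U hU]
        exact F0.one_mem
      smul_mem' := by
        intro n a ha
        show pw U (n • a) ∈ F0
        rw [pw_zsmul U hU]
        exact zpow_mem ha n }
  have hN : ∀ a, a ∈ N ↔ pw U a ∈ F0 := fun a => Iff.rfl
  have htor : Module.IsTorsionFree ℤ ((κ → ℤ) ⧸ N) := by
    rw [Module.isTorsionFree_iff_smul_eq_zero]
    intro n q hq
    obtain ⟨a, rfl⟩ := Submodule.Quotient.mk_surjective N q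
    rw [← Submodule.Quotient.mk_smul, Submodule.Quotient.mk_eq_zero, hN, pw_zsmul U hU] at hq
    by_cases hn : n = 0
    · exact Or.inl hn
    · right
      rw [Submodule.Quotient.mk_eq_zero, hN]
      refine htf _ n.natAbs (Int.natAbs_ne_zero.2 hn) ?_
      rcases Int.natAbs_eq n with h | h
      · rw [h, zpow_natCast] at hq
        exact hq
      · rw [h, zpow_neg, zpow_natCast] at hq
        have h1 := F0.inv_mem hq
        rwa [inv_inv] at h1
  let Q := (κ → ℤ) ⧸ N
  let B := Module.finBasis ℤ Q
  choose b hb using fun i => Submodule.Quotient.mk_surjective N (B i)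
  refine ⟨_, b, fun j i => B.repr (Submodule.Quotient.mk (Pi.single j 1)) i, ?_, ?_⟩
  · intro a ha
    have h1 : ∏ i, pw U (b i) ^ a i = pw U (∑ i, a i • b i) := by
      rw [pw_sum U hU]
      exact Finset.prod_congr rfl fun i _ => (pw_zsmul U hU _ _).symm
    rw [h1, ← hN, ← Submodule.Quotient.mk_eq_zero] at ha
    have h2 : (Submodule.Quotient.mk (∑ i, a i • b i) : (κ → ℤ) ⧸ N) = ∑ i, a i • B i := by
      have h3 := map_sum (N.mkQ) (fun i => a i • b i) Finset.univ
      simp only [map_smul, Submodule.mkQ_apply] at h3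
      rw [h3]
      exact Finset.sum_congr rfl fun i _ => by rw [hb]
    rw [h2] at ha
    have h4 := (Fintype.linearIndependent_iff.1 B.linearIndependent) a ha
    funext i
    exact h4 i
  · intro j
    set m : Fin _ → ℤ := fun i => B.repr (Submodule.Quotient.mk (Pi.single j 1)) i with hm
    have h1 : U j / ∏ i, pw U (b i) ^ m i = pw U (Pi.single j 1 - ∑ i, m i • b i) := by
      rw [sub_eq_add_neg, pw_add U hU, pw_neg U hU, pw_single U hU, pw_sum U hU, div_eq_mul_inv]
      congr 2
      exact Finset.prod_congr rfl fun i _ => (pw_zsmul U hU _ _).symm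
    show U j / ∏ i, pw U (b i) ^ m i ∈ F0
    rw [h1, ← hN, ← Submodule.Quotient.mk_eq_zero, Submodule.Quotient.mk_sub, sub_eq_zero]
    have h3 := map_sum (N.mkQ) (fun i => m i • b i) Finset.univ
    simp only [map_smul, Submodule.mkQ_apply] at h3
    rw [h3]
    conv_lhs => rw [← B.sum_repr (Submodule.Quotient.mk (Pi.single j 1))]
    exact Finset.sum_congr rfl fun i _ => by rw [hb]

end Pool.Agent.D0H85.SP
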