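import Pool.Agent.D0H85.SP.Fin1

/-!
Specialisation of a curve to a number field.
-/

set_option autoImplicit false
set_option linter.unusedSectionVars false

namespace Pool.Agent.D0H85.SP

open NumberField IsDedekindDomain Height Filter Topology

/-- a polynomial without roots outside `0` divides a power of `X` -/
theorem dvd_X_pow {Ω : Type} [Field Ω] [IsAlgClosed Ω] (d : Polynomial Ω)
    (h : ∀ t : Ω, t ≠ 0 → d.eval t ≠ 0) : ∃ M : ℕ, d ∣ Polynomial.X ^ M := by
  have hd : d ≠ 0 := by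
    rintro rfl
    exact h 1 one_ne_zero Polynomial.eval_zero
  have h1 := (IsAlgClosed.splits d).eq_prod_roots
  have h2 : d.roots = Multiset.replicate (Multiset.card d.roots) 0 := by
    rw [Multiset.eq_replicate]
    refine ⟨rfl, fun b hb => ?_⟩
    by_contra hb0
    exact h b hb0 ((Polynomial.mem_roots hd).1 hb)
  refine ⟨Multiset.card d.roots, Polynomial.C (d.leadingCoeff)⁻¹, ?_⟩
  have h3 : d = Polynomial.C d.leadingCoeff * Polynomial.X ^ Multiset.card d.roots := by
    conv_lhs => rw [h1, h2]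
    rw [Multiset.map_replicate, Multiset.prod_replicate, Polynomial.C_0, sub_zero]
  have h4 : Polynomial.C d.leadingCoeff * Polynomial.C (d.leadingCoeff)⁻¹ = 1 := by
    rw [← Polynomial.C_mul, mul_inv_cancel₀ (Polynomial.leadingCoeff_ne_zero.2 hd),
      Polynomial.C_1]
  calc Polynomial.X ^ Multiset.card d.roots = (Polynomial.C d.leadingCoeff *
        Polynomial.C (d.leadingCoeff)⁻¹) * Polynomial.X ^ Multiset.card d.roots := by
        rw [h4, one_mul]
    _ = (Polynomial.C d.leadingCoeff * Polynomial.X ^ Multiset.card d.roots) *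
        Polynomial.C (d.leadingCoeff)⁻¹ := by ring
    _ = d * Polynomial.C (d.leadingCoeff)⁻¹ := by rw [← h3]

theorem poly_zero {Ω : Type} [Field Ω] [Infinite Ω] (p : Polynomial Ω)
    (h : ∀ t : Ω, t ≠ 0 → p.eval t = 0) : p = 0 := by
  have h1 : p * Polynomial.X = 0 := by
    apply Polynomial.funext
    intro t
    rw [Polynomial.eval_mul, Polynomial.eval_X, Polynomial.eval_zero]
    by_cases ht : t = 0
    · rw [ht, mul_zero]
    · rw [h t ht, zero_mul]
  exact (mul_eq_zero.1 h1).resolve_right Polynomial.X_ne_zero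

/-- the value of a polynomial in polynomials -/
theorem eval_eval₂ {K Ω ι : Type} [Field K] [Field Ω] (ψ : K →+* Ω) (P : ι → Polynomial Ω)
    (g : MvPolynomial ι K) (t : Ω) :
    (g.eval₂ (Polynomial.C.comp ψ) P).eval t = g.eval₂ ψ (fun i => (P i).eval t) := by
  have h1 := MvPolynomial.hom_eval₂ g (Polynomial.C.comp ψ) (Polynomial.evalRingHom t) P
  rw [Polynomial.coe_evalRingHom] at h1
  rw [h1]
  congr 1
  refine RingHom.ext fun z => ?_
  simp

/-- a curve over the field `L`, with certificates -/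
structure Cert {K : Type} [Field K] {n w r : ℕ} (G : Set (MvPolynomial (Fin (n + 1)) K))
    (F : Fin w → MvPolynomial (Fin (n + 1)) K) (H : Fin r → MvPolynomial (Fin (n + 1)) K)
    {L : Type} [Field L] (ψ : K →+* L) (P : Fin (n + 1) → Polynomial L)
    (B : Fin w → Polynomial L) (M : ℕ) : Prop where
  eqn : ∀ g ∈ G, g.eval₂ (Polynomial.C.comp ψ) P = 0
  bez : ∑ j, B j * (F j).eval₂ (Polynomial.C.comp ψ) P = Polynomial.X ^ M
  non : Nonconstant P
  out : ¬ Inside H ψ P

/-- **Specialisation.** -/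
theorem specialise {K : Type} [Field K] [NumberField K] {n w r : ℕ}
    (G : Set (MvPolynomial (Fin (n + 1)) K)) (F : Fin w → MvPolynomial (Fin (n + 1)) K)
    (H : Fin r → MvPolynomial (Fin (n + 1)) K) {Ω : Type} [Field Ω] [IsAlgClosed Ω]
    (ψ : K →+* Ω) (P : Fin (n + 1) → Polynomial Ω) (h1 : MapsTo G F ψ P) (h2 : Nonconstant P)
    (h3 : ¬ Inside H ψ P) :
    ∃ (L : Type) (_ : Field L) (_ : NumberField L) (_ : Algebra K L)
      (P' : Fin (n + 1) → Polynomial L) (B : Fin w → Polynomial L) (M : ℕ),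
      Cert G F H (algebraMap K L) P' B M := by
  classical
  let _ : Algebra K Ω := ψ.toAlgebra
  have hψ : algebraMap K Ω = ψ := rfl
  -- the polynomial identities
  have hG : ∀ g ∈ G, g.eval₂ (Polynomial.C.comp ψ) P = 0 := by
    intro g hg
    apply poly_zero
    intro t ht
    rw [eval_eval₂]
    exact (h1 t ht).1 g hg
  obtain ⟨B, M, hB⟩ : ∃ (B : Fin w → Polynomial Ω) (M : ℕ),
      ∑ j, B j * (F j).eval₂ (Polynomial.C.comp ψ) P = Polynomial.X ^ M := by
    let I : Ideal (Polynomial Ω) := Ideal.span (Set.range fun j =>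
      (F j).eval₂ (Polynomial.C.comp ψ) P)
    obtain ⟨d, hd⟩ : ∃ d, I = Ideal.span {d} := by
      have := (IsPrincipalIdealRing.principal I)
      exact this.principal
    obtain ⟨M, hM⟩ := dvd_X_pow d (by
      intro t ht h0
      obtain ⟨j, hj⟩ := (h1 t ht).2
      apply hj
      have h4 : (F j).eval₂ (Polynomial.C.comp ψ) P ∈ I := Ideal.subset_span ⟨j, rfl⟩
      rw [hd, Ideal.mem_span_singleton] at h4
      obtain ⟨y, hy⟩ := h4
      rw [← eval_eval₂, hy, Polynomial.eval_mul, h0, zero_mul])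
    have h5 : (Polynomial.X ^ M : Polynomial Ω) ∈ I := by
      rw [hd, Ideal.mem_span_singleton]
      exact hM
    obtain ⟨B, hB⟩ := (Ideal.mem_span_range_iff_exists_fun).1 h5
    exact ⟨B, M, hB⟩
  obtain ⟨s, t, hs, ht, i0, j0, hst⟩ := h2
  obtain ⟨t0, l0, ht0, hout⟩ : ∃ (t0 : Ω) (l0 : Fin r), t0 ≠ 0 ∧
      (H l0).eval₂ ψ (fun i => (P i).eval t0) ≠ 0 := by
    unfold Inside at h3
    push Not at h3
    obtain ⟨t0, h4, l0, h5⟩ := h3
    exact ⟨t0, l0, h4, h5⟩
  set δ : Ω := (P i0).eval s * (P j0).eval t - (P j0).eval s * (P i0).eval t with hδ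
  have hδ0 : δ ≠ 0 := sub_ne_zero.2 hst
  set η : Ω := (H l0).eval₂ ψ (fun i => (P i).eval t0) with hη
  -- the finitely generated algebra
  let T0 : Finset Ω := (Finset.univ.biUnion fun i => (P i).coeffs) ∪
    (Finset.univ.biUnion fun j => (B j).coeffs) ∪ {s, t, t0, s⁻¹, t⁻¹, t0⁻¹, δ⁻¹, η⁻¹}
  let A : Subalgebra K Ω := Algebra.adjoin K (T0 : Set Ω)
  have hT : ∀ x ∈ T0, x ∈ A := fun x hx => Algebra.subset_adjoin hx
  have hfin : Algebra.FiniteType K A :=
    (Subalgebra.fg_iff_finiteType A).1 ⟨T0, rfl⟩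
  have hlift : ∀ p : Polynomial Ω, (∀ m, p.coeff m ∈ A) →
      ∃ q : Polynomial A, q.map (A.val : A →+* Ω) = p := by
    intro p hp
    have h4 : p ∈ Polynomial.lifts (A.val : A →+* Ω) := by
      rw [Polynomial.lifts_iff_coeff_lifts]
      intro m
      exact ⟨⟨_, hp m⟩, rfl⟩
    exact (Polynomial.mem_lifts _).1 h4
  have hcoeff : ∀ (p : Polynomial Ω), (∀ c ∈ p.coeffs, c ∈ T0) → ∀ m, p.coeff m ∈ A := by
    intro p hp m
    by_cases h0 : p.coeff m = 0
    · rw [h0]
      exact A.zero_mem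
    · exact hT _ (hp _ (Polynomial.coeff_mem_coeffs h0))
  choose PA hPA using fun i => hlift (P i) (hcoeff _ fun c hc => by
    refine Finset.mem_union_left _ (Finset.mem_union_left _ ?_)
    exact Finset.mem_biUnion.2 ⟨i, Finset.mem_univ _, hc⟩)
  choose BA hBA using fun j => hlift (B j) (hcoeff _ fun c hc => by
    refine Finset.mem_union_left _ (Finset.mem_union_right _ ?_)
    exact Finset.mem_biUnion.2 ⟨j, Finset.mem_univ _, hc⟩)
  have hmem : ∀ x ∈ ({s, t, t0, s⁻¹, t⁻¹, t0⁻¹, δ⁻¹, η⁻¹} : Finset Ω), x ∈ A := fun x hx =>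
    hT x (Finset.mem_union_right _ hx)
  let sA : A := ⟨s, hmem _ (by simp)⟩
  let tA : A := ⟨t, hmem _ (by simp)⟩
  let t0A : A := ⟨t0, hmem _ (by simp)⟩
  let si : A := ⟨s⁻¹, hmem _ (by simp)⟩
  let ti : A := ⟨t⁻¹, hmem _ (by simp)⟩
  let t0i : A := ⟨t0⁻¹, hmem _ (by simp)⟩
  let δi : A := ⟨δ⁻¹, hmem _ (by simp)⟩
  let ηi : A := ⟨η⁻¹, hmem _ (by simp)⟩
  -- the residue field
  obtain ⟨𝔪, h𝔪⟩ := Ideal.exists_maximal A
  let _ : Field (A ⧸ 𝔪) := Ideal.Quotient.field 𝔪
  have hft : Algebra.FiniteType K (A ⧸ 𝔪) := inferInstance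
  have hmf : Module.Finite K (A ⧸ 𝔪) := finite_of_finite_type_of_isJacobsonRing K (A ⧸ 𝔪)
  have hnf : NumberField (A ⧸ 𝔪) := NumberField.of_module_finite K (A ⧸ 𝔪)
  let π : A →+* (A ⧸ 𝔪) := Ideal.Quotient.mk 𝔪
  have hval : Function.Injective (A.val : A →+* Ω) := Subtype.val_injective
  have hcomp : (Polynomial.mapRingHom (A.val : A →+* Ω)).comp (Polynomial.C.comp (algebraMap K A)) =
      Polynomial.C.comp ψ := by
    refine RingHom.ext fun z => ?_
    show Polynomial.map (A.val : A →+* Ω) (Polynomial.C (algebraMap K A z)) = _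
    rw [Polynomial.map_C]
    rfl
  have hcompπ : (Polynomial.mapRingHom π).comp (Polynomial.C.comp (algebraMap K A)) =
      Polynomial.C.comp (algebraMap K (A ⧸ 𝔪)) := by
    refine RingHom.ext fun z => ?_
    show Polynomial.map π (Polynomial.C (algebraMap K A z)) = _
    rw [Polynomial.map_C]
    rfl
  have hup : ∀ g : MvPolynomial (Fin (n + 1)) K,
      (g.eval₂ (Polynomial.C.comp (algebraMap K A)) PA).map (A.val : A →+* Ω) =
        g.eval₂ (Polynomial.C.comp ψ) P := by
    intro g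
    have h4 := MvPolynomial.hom_eval₂ g (Polynomial.C.comp (algebraMap K A))
      (Polynomial.mapRingHom (A.val : A →+* Ω)) PA
    rw [hcomp] at h4
    have h5 : (fun i => (Polynomial.mapRingHom (A.val : A →+* Ω)) (PA i)) = P := by
      funext i
      exact hPA i
    rw [h5] at h4
    exact h4
  have hdown : ∀ g : MvPolynomial (Fin (n + 1)) K,
      (g.eval₂ (Polynomial.C.comp (algebraMap K A)) PA).map π =
        g.eval₂ (Polynomial.C.comp (algebraMap K (A ⧸ 𝔪))) fun i => (PA i).map π := by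
    intro g
    have h4 := MvPolynomial.hom_eval₂ g (Polynomial.C.comp (algebraMap K A))
      (Polynomial.mapRingHom π) PA
    rw [hcompπ] at h4
    exact h4
  have hunit : ∀ x y : A, (x : Ω) * y = 1 → π x ≠ 0 := by
    intro x y hxy h0
    have h4 : x * y = 1 := Subtype.ext hxy
    have h5 := congrArg π h4
    rw [map_mul, h0, zero_mul, map_one] at h5
    exact zero_ne_one h5
  have hevA : ∀ (p : Polynomial A) (x : A), ((p.eval x : A) : Ω) =
      (p.map (A.val : A →+* Ω)).eval (x : Ω) := by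
    intro p x
    exact (Polynomial.eval_map_apply (A.val : A →+* Ω) x).symm
  have hevπ : ∀ (p : Polynomial A) (x : A), π (p.eval x) = (p.map π).eval (π x) := by
    intro p x
    exact (Polynomial.eval_map_apply π x).symm
  refine ⟨A ⧸ 𝔪, inferInstance, hnf, inferInstance, fun i => (PA i).map π,
    fun j => (BA j).map π, M, ?_, ?_, ?_, ?_⟩
  · intro g hg
    rw [← hdown]
    have h4 : g.eval₂ (Polynomial.C.comp (algebraMap K A)) PA = 0 := by
      apply Polynomial.map_injective _ hval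
      rw [hup, hG g hg, Polynomial.map_zero]
    rw [h4, Polynomial.map_zero]
  · have h4 : ∑ j, BA j * (F j).eval₂ (Polynomial.C.comp (algebraMap K A)) PA =
        Polynomial.X ^ M := by
      apply Polynomial.map_injective _ hval
      rw [Polynomial.map_sum, Polynomial.map_pow, Polynomial.map_X, ← hB]
      refine Finset.sum_congr rfl fun j _ => ?_
      rw [Polynomial.map_mul, hup, hBA]
    have h5 := congrArg (Polynomial.map π) h4
    rw [Polynomial.map_sum, Polynomial.map_pow, Polynomial.map_X] at h5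
    rw [← h5]
    refine Finset.sum_congr rfl fun j _ => ?_
    rw [Polynomial.map_mul, hdown]
  · refine ⟨π sA, π tA, hunit sA si (mul_inv_cancel₀ hs), hunit tA ti (mul_inv_cancel₀ ht), i0, j0,
      ?_⟩
    rw [← sub_ne_zero, ← hevπ, ← hevπ, ← hevπ, ← hevπ, ← map_mul, ← map_mul, ← map_sub]
    refine hunit _ δi ?_
    have h4 : (((PA i0).eval sA * (PA j0).eval tA - (PA j0).eval sA * (PA i0).eval tA : A) : Ω) =
        δ := by
      push_cast
      rw [hevA, hevA, hevA, hevA, hPA, hPA]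
    rw [h4]
    exact mul_inv_cancel₀ hδ0
  · intro hin
    apply hunit ((((H l0).eval₂ (Polynomial.C.comp (algebraMap K A)) PA).eval t0A)) ηi
    · rw [hevA, hup]
      show ((H l0).eval₂ (Polynomial.C.comp ψ) P).eval t0 * η⁻¹ = 1
      rw [eval_eval₂]
      exact mul_inv_cancel₀ hout
    · rw [hevπ, hdown]
      have h4 := hin (π t0A) (hunit t0A t0i (mul_inv_cancel₀ ht0)) l0
      rw [← h4, eval_eval₂]

end Pool.Agent.D0H85.SP
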