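import Pool.Agent.D0H85.SP.Gcd

/-!
Weights which separate monomials; proportional one-parameter curves.
-/

set_option autoImplicit false
set_option linter.unusedSectionVars false

namespace Pool.Agent.D0H85.SP

variable {F : Type} [Field F] {s : ℕ}

/-- weights which separate finitely many monomials -/
theorem exists_weights (D : Finset (Fin s →₀ ℕ)) :
    ∃ l : Fin s → ℕ, ∀ m ∈ D, ∀ m' ∈ D, ∑ i, m i * l i = ∑ i, m' i * l i → m = m' := by
  classical
  obtain ⟨B, hB⟩ : ∃ B : ℕ, ∀ m ∈ D, ∀ i, m i < B := by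
    refine ⟨∑ m ∈ D, ∑ i, m i + 1, fun m hm i => ?_⟩
    have h1 : m i ≤ ∑ i, m i := Finset.single_le_sum (f := fun i => m i)
      (fun _ _ => Nat.zero_le _) (Finset.mem_univ i)
    have h2 : ∑ i, m i ≤ ∑ m ∈ D, ∑ i, m i :=
      Finset.single_le_sum (f := fun m : Fin s →₀ ℕ => ∑ i, m i) (fun _ _ => Nat.zero_le _) hm
    omega
  refine ⟨fun i => B ^ (i : ℕ), fun m hm m' hm' h => ?_⟩
  let f : Fin s → Fin B := fun i => ⟨m i, hB m hm i⟩
  let f' : Fin s → Fin B := fun i => ⟨m' i, hB m' hm' i⟩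
  have h1 : finFunctionFinEquiv f = finFunctionFinEquiv f' := by
    apply Fin.ext
    rw [finFunctionFinEquiv_apply, finFunctionFinEquiv_apply]
    exact h
  have h2 := finFunctionFinEquiv.injective h1
  ext i
  have h3 := congrFun h2 i
  exact congrArg Fin.val h3

/-- the weight of a monomial -/
def wgt (l : Fin s → ℕ) (m : Fin s →₀ ℕ) : ℕ := ∑ i, m i * l i

theorem Th_monomial (l : Fin s → ℕ) (m : Fin s →₀ ℕ) (c : F) :
    Th l (MvPolynomial.monomial m c) =
      Polynomial.C (MvPolynomial.monomial m c) * Polynomial.X ^ wgt l m := by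
  rw [MvPolynomial.monomial_eq, Finsupp.prod_fintype _ _ (by simp), map_mul, Th_C, map_prod,
    map_mul, map_prod, mul_assoc]
  congr 1
  have h1 : ∀ i, Th (F := F) l (MvPolynomial.X i ^ m i) =
      Polynomial.C (MvPolynomial.X i ^ m i) * Polynomial.X ^ (m i * l i) := by
    intro i
    rw [map_pow, Th_X, mul_pow, ← pow_mul, map_pow, mul_comm (l i)]
  rw [Finset.prod_congr rfl fun i _ => h1 i, Finset.prod_mul_distrib]
  congr 1
  rw [Finset.prod_pow_eq_pow_sum]
  rfl

theorem Th_coeff (l : Fin s → ℕ) (D : Finset (Fin s →₀ ℕ))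
    (hl : ∀ m ∈ D, ∀ m' ∈ D, ∑ i, m i * l i = ∑ i, m' i * l i → m = m')
    (a : MvPolynomial (Fin s) F) (ha : a.support ⊆ D) (m : Fin s →₀ ℕ) (hm : m ∈ D) :
    (Th l a).coeff (wgt l m) = MvPolynomial.monomial m (a.coeff m) := by
  classical
  have h1 : Th l a = ∑ m ∈ a.support,
      Polynomial.C (MvPolynomial.monomial m (a.coeff m)) * Polynomial.X ^ wgt l m := by
    conv_lhs => rw [MvPolynomial.as_sum a]
    rw [map_sum]
    exact Finset.sum_congr rfl fun m _ => Th_monomial l m _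
  rw [h1, Polynomial.finsetSum_coeff]
  simp only [Polynomial.coeff_C_mul_X_pow]
  by_cases hms : m ∈ a.support
  · rw [Finset.sum_eq_single m]
    · rw [if_pos rfl]
    · intro m' hm' hne
      rw [if_neg]
      intro h
      exact hne (hl m' (ha hm') m hm h.symm)
    · intro h
      exact absurd hms h
  · rw [MvPolynomial.notMem_support_iff.1 hms, map_zero]
    refine Finset.sum_eq_zero fun m' hm' => ?_
    rw [if_neg]
    intro h
    apply hms
    rw [hl m hm m' (ha hm') h]
    exact hm'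

/-- if the curve is constant then so is the point -/
theorem const_curve {ι : Type} (l : Fin s → ℕ) (D : Finset (Fin s →₀ ℕ))
    (hl : ∀ m ∈ D, ∀ m' ∈ D, ∑ i, m i * l i = ∑ i, m' i * l i → m = m')
    (φ : ι → MvPolynomial (Fin s) F) (hφ : ∀ i, (φ i).support ⊆ D) (i0 : ι) (h0 : φ i0 ≠ 0)
    (h : ∀ j, Th l (φ i0) * Polynomial.C (φ j) = Th l (φ j) * Polynomial.C (φ i0)) (j : ι) :
    ∃ c : F, φ j = MvPolynomial.C c * φ i0 := by
  obtain ⟨m, hm⟩ := MvPolynomial.ne_zero_iff.1 h0
  have hmD : m ∈ D := hφ i0 (MvPolynomial.mem_support_iff.2 hm)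
  have h1 := congrArg (fun p => Polynomial.coeff p (wgt l m)) (h j)
  simp only [Polynomial.coeff_mul_C] at h1
  rw [Th_coeff l D hl _ (hφ i0) m hmD, Th_coeff l D hl _ (hφ j) m hmD] at h1
  set a := (φ i0).coeff m with ha
  set b := (φ j).coeff m with hb
  have e1 : ∀ c : F, MvPolynomial.monomial m c =
      MvPolynomial.monomial m (1 : F) * MvPolynomial.C c := by
    intro c
    rw [mul_comm, MvPolynomial.C_mul_monomial, mul_one]
  rw [e1 a, e1 b, mul_assoc, mul_assoc] at h1
  have h2 : MvPolynomial.monomial m (1 : F) ≠ 0 := by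
    rw [Ne, MvPolynomial.monomial_eq_zero]
    exact one_ne_zero
  have h3 := mul_left_cancel₀ h2 h1
  refine ⟨b / a, ?_⟩
  have h4 : MvPolynomial.C (σ := Fin s) (a⁻¹) * (MvPolynomial.C a * φ j) =
      MvPolynomial.C (a⁻¹) * (MvPolynomial.C b * φ i0) := by rw [h3]
  rw [← mul_assoc, ← mul_assoc, ← map_mul, ← map_mul, inv_mul_cancel₀ hm, map_one, one_mul] at h4
  rw [h4, div_eq_inv_mul]

end Pool.Agent.D0H85.SP
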