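import Pool.Agent.D0H85.SP.Spec

/-!
Sparse integral points on curves.
-/

set_option autoImplicit false
set_option linter.unusedSectionVars false

namespace Pool.Agent.D0H85.SP

open NumberField IsDedekindDomain Height Filter Topology
open scoped LinearAlgebra.Projectivization
open Pool.Agent.W180.OP (Pl av wt fv fv_support_finite wt_nonneg)
open Pool.Agent.K1H83.VN

variable {K : Type} [Field K] {n w r : ℕ} {G : Set (MvPolynomial (Fin (n + 1)) K)}
  {F : Fin w → MvPolynomial (Fin (n + 1)) K} {H : Fin r → MvPolynomial (Fin (n + 1)) K}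

section cert

variable {L : Type} [Field L] {ψ : K →+* L} {P : Fin (n + 1) → Polynomial L}
  {B : Fin w → Polynomial L} {M : ℕ}

theorem Cert.eq_zero (h : Cert G F H ψ P B M) {g : MvPolynomial (Fin (n + 1)) K} (hg : g ∈ G)
    (t : L) : g.eval₂ ψ (fun i => (P i).eval t) = 0 := by
  rw [← eval_eval₂, h.eqn g hg, Polynomial.eval_zero]

theorem Cert.bezout (h : Cert G F H ψ P B M) (t : L) :
    ∑ j, (B j).eval t * (F j).eval₂ ψ (fun i => (P i).eval t) = t ^ M := by
  have h1 := congrArg (Polynomial.eval t) h.bez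
  rw [Polynomial.eval_finsetSum, Polynomial.eval_pow, Polynomial.eval_X] at h1
  rw [← h1]
  refine Finset.sum_congr rfl fun j _ => ?_
  rw [Polynomial.eval_mul, eval_eval₂]

theorem Cert.exists_ne (h : Cert G F H ψ P B M) {t : L} (ht : t ≠ 0) :
    ∃ j, (F j).eval₂ ψ (fun i => (P i).eval t) ≠ 0 := by
  by_contra hno
  push Not at hno
  have h1 := h.bezout t
  simp only [hno, mul_zero, Finset.sum_const_zero] at h1
  exact pow_ne_zero M ht h1.symm

theorem Cert.mapsTo (h : Cert G F H ψ P B M) : MapsTo G F ψ P :=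
  fun t ht => ⟨fun _ hg => h.eq_zero hg t, h.exists_ne ht⟩

/-- a change of the field -/
theorem Cert.map (h : Cert G F H ψ P B M) {L' : Type} [Field L'] (φ : L →+* L') :
    Cert G F H (φ.comp ψ) (fun i => (P i).map φ) (fun j => (B j).map φ) M := by
  have hg : ∀ g : MvPolynomial (Fin (n + 1)) K,
      g.eval₂ (Polynomial.C.comp (φ.comp ψ)) (fun i => (P i).map φ) =
        (g.eval₂ (Polynomial.C.comp ψ) P).map φ := by
    intro g
    have h4 := MvPolynomial.hom_eval₂ g (Polynomial.C.comp ψ) (Polynomial.mapRingHom φ) P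
    have h5 : (Polynomial.mapRingHom φ).comp (Polynomial.C.comp ψ) =
        Polynomial.C.comp (φ.comp ψ) := by
      refine RingHom.ext fun z => ?_
      show Polynomial.map φ (Polynomial.C (ψ z)) = _
      rw [Polynomial.map_C]
      rfl
    rw [h5] at h4
    exact h4.symm
  constructor
  · intro g hgG
    rw [hg, h.eqn g hgG, Polynomial.map_zero]
  · have h1 := congrArg (Polynomial.map φ) h.bez
    rw [Polynomial.map_sum, Polynomial.map_pow, Polynomial.map_X] at h1
    rw [← h1]
    refine Finset.sum_congr rfl fun j _ => ?_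
    rw [Polynomial.map_mul, hg]
  · obtain ⟨s, t, hs, ht, i, j, hne⟩ := h.non
    refine ⟨φ s, φ t, (map_ne_zero φ).2 hs, (map_ne_zero φ).2 ht, i, j, ?_⟩
    simp only [Polynomial.eval_map_apply]
    rw [← map_mul, ← map_mul]
    exact fun h => hne (φ.injective h)
  · have h1 := h.out
    unfold Inside at h1
    push Not at h1
    obtain ⟨t, ht, l, hl⟩ := h1
    intro hin
    have h2 := hin (φ t) ((map_ne_zero φ).2 ht) l
    rw [← eval_eval₂, hg, Polynomial.eval_map_apply, eval_eval₂, map_eq_zero] at h2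
    exact hl h2

theorem not_alg [Algebra K L] [Algebra.IsAlgebraic K L] (h : Cert G F H (algebraMap K L) P B M) :
    ¬ CurvesInAlg G F H := by
  intro hc
  let φ : L →ₐ[K] AlgebraicClosure K := IsAlgClosed.lift
  have h1 := h.map (φ : L →+* AlgebraicClosure K)
  have h2 : (φ : L →+* AlgebraicClosure K).comp (algebraMap K L) =
      algebraMap K (AlgebraicClosure K) := φ.comp_algebraMap
  rw [h2] at h1
  exact h1.out (hc _ h1.mapsTo h1.non)

end cert

section points

variable {L : Type} [Field L] [NumberField L] [Algebra K L] {P : Fin (n + 1) → Polynomial L}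
  {B : Fin w → Polynomial L} {M : ℕ}

/-- the primes at which one of the coefficients is not a unit -/
def badPrimes (T : Finset L) : Set (HeightOneSpectrum (𝓞 L)) :=
  {v | ∃ c ∈ T, c ≠ 0 ∧ fv v c ≠ 1}

theorem bad_finite (T : Finset L) : (badPrimes T).Finite := by
  classical
  have h1 : badPrimes T = ⋃ c ∈ {c ∈ T | c ≠ 0}, {v : HeightOneSpectrum (𝓞 L) | fv v c ≠ 1} := by
    ext v
    simp only [badPrimes, Set.mem_iUnion, Set.mem_ofPred_eq, Finset.mem_filter]
    constructor
    · rintro ⟨c, h1, h2, h3⟩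
      exact ⟨c, ⟨h1, h2⟩, h3⟩
    · rintro ⟨c, ⟨h1, h2⟩, h3⟩
      exact ⟨c, h1, h2, h3⟩
  rw [h1]
  refine Set.Finite.biUnion (Finset.finite_toSet _) fun c hc => ?_
  have h2 := Finset.mem_coe.1 hc
  rw [Finset.mem_filter] at h2
  exact fv_support_finite h2.2

theorem good_one {T : Finset L} {v : HeightOneSpectrum (𝓞 L)} (hv : v ∉ badPrimes T) {c : L}
    (hc : c ∈ T) (h0 : c ≠ 0) : fv v c = 1 := by
  by_contra h
  exact hv ⟨c, hc, h0, h⟩

theorem pts (h : Cert G F H (algebraMap K L) P B M) : ¬ FiniteUnits G F H := by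
  classical
  intro hfin
  -- the primes
  let T0 : Finset L := (Finset.univ.biUnion fun i => (P i).coeffs) ∪
    (Finset.univ.biUnion fun j => (B j).coeffs) ∪ {2}
  set S : Set (HeightOneSpectrum (𝓞 L)) := badPrimes T0 with hS
  have hSf : S.Finite := bad_finite T0
  have hP : ∀ v, v ∉ S → ∀ i m, (P i).coeff m ≠ 0 → fv v ((P i).coeff m) = 1 := by
    intro v hv i m hm
    refine good_one hv ?_ hm
    refine Finset.mem_union_left _ (Finset.mem_union_left _ ?_)
    exact Finset.mem_biUnion.2 ⟨i, Finset.mem_univ _, Polynomial.coeff_mem_coeffs hm⟩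
  have hBc : ∀ v, v ∉ S → ∀ j m, fv v ((B j).coeff m) ≤ 1 := by
    intro v hv j m
    by_cases hm : (B j).coeff m = 0
    · rw [hm, map_zero]
      exact zero_le_one
    · refine (good_one hv ?_ hm).le
      refine Finset.mem_union_left _ (Finset.mem_union_right _ ?_)
      exact Finset.mem_biUnion.2 ⟨j, Finset.mem_univ _, Polynomial.coeff_mem_coeffs hm⟩
  have h20 : (2 : L) ≠ 0 := two_ne_zero
  have h2 : ∀ v, v ∉ S → ∀ m : ℕ, fv v ((2 : L) ^ m) = 1 := by
    intro v hv m
    rw [map_pow, good_one hv (Finset.mem_union_right _ (by simp)) h20, one_pow]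
  have hB1 : ∀ v, v ∉ S → ∀ j (m : ℕ), fv v ((B j).eval ((2 : L) ^ m)) ≤ 1 := by
    intro v hv j m
    rw [Polynomial.eval_eq_sum_range]
    obtain ⟨i, -, hi⟩ := (fv_na v).finset_image_add_of_nonempty
      (fun i => (B j).coeff i * ((2 : L) ^ m) ^ i)
      (Finset.nonempty_range_iff.2 (Nat.succ_ne_zero (B j).natDegree))
    refine hi.trans ?_
    rw [map_mul, ← pow_mul, h2 v hv, mul_one]
    exact hBc v hv j i
  -- the points
  let y : ℕ → L := fun m => (2 : L) ^ m
  have hy0 : ∀ m, y m ≠ 0 := fun m => pow_ne_zero _ h20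
  have hyinj : Function.Injective y := by
    intro a b hab
    have h3 : ((2 ^ a : ℕ) : L) = ((2 ^ b : ℕ) : L) := by
      push_cast
      exact hab
    exact Nat.pow_right_injective le_rfl (Nat.cast_injective h3)
  let x : ℕ → Fin (n + 1) → L := fun m i => (P i).eval (y m)
  -- the good exponents
  obtain ⟨t1, ht1, l1, hl1⟩ : ∃ t : L, t ≠ 0 ∧ ∃ l,
      (H l).eval₂ (algebraMap K L) (fun i => (P i).eval t) ≠ 0 := by
    have h3 := h.out
    unfold Inside at h3
    push Not at h3
    exact h3
  let q : Polynomial L := (H l1).eval₂ (Polynomial.C.comp (algebraMap K L)) P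
  have hq0 : q ≠ 0 := by
    intro h0
    apply hl1
    rw [← eval_eval₂]
    show q.eval t1 = 0
    rw [h0, Polynomial.eval_zero]
  obtain ⟨s1, t2, hs1, ht2, i0, j0, hne⟩ := h.non
  have hPi : ∃ i, P i ≠ 0 := by
    by_contra hno
    push Not at hno
    apply hne
    rw [hno i0, hno j0]
  obtain ⟨i1, hi1⟩ := hPi
  have hgood : {m : ℕ | q.eval (y m) ≠ 0 ∧ (P i1).eval (y m) ≠ 0}.Infinite := by
    have h3 : {m : ℕ | (q * P i1).eval (y m) = 0}.Finite := by
      have h4 : ((q * P i1).roots.toFinset : Set L).Finite := Finset.finite_toSet _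
      refine (h4.preimage hyinj.injOn).subset fun m hm => ?_
      show y m ∈ ((q * P i1).roots.toFinset : Set L)
      rw [Finset.mem_coe, Multiset.mem_toFinset, Polynomial.mem_roots (mul_ne_zero hq0 hi1)]
      exact hm
    have h5 : {m : ℕ | q.eval (y m) ≠ 0 ∧ (P i1).eval (y m) ≠ 0} =
        {m : ℕ | (q * P i1).eval (y m) = 0}ᶜ := by
      ext m
      simp only [Set.mem_ofPred_eq, Set.mem_compl_iff, Polynomial.eval_mul, mul_eq_zero, not_or]
    rw [h5]
    exact h3.infinite_compl
  set A : Set ℕ := {m : ℕ | q.eval (y m) ≠ 0 ∧ (P i1).eval (y m) ≠ 0} with hA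
  have hx0 : ∀ m ∈ A, x m ≠ 0 := fun m hm h0 => hm.2 (congrFun h0 i1)
  let N : ℕ := ∑ i, (P i).natDegree + 1
  let Q : ℕ → ℙ L (Fin (n + 1) → L) := fun m => if hm : x m ≠ 0 then
    Projectivization.mk L (x m) hm else Projectivization.mk L (fun _ => 1)
      (fun h0 => one_ne_zero (congrFun h0 0))
  have hQ : ∀ m ∈ A, IsSparsePoint G F H L S N 0 (Q m) := by
    intro m hm
    refine ⟨x m, hx0 m hm, dif_pos (hx0 m hm), ?_, ?_, ?_, ?_, ?_⟩
    · intro g hg
      rw [MvPolynomial.aeval_def]
      exact h.eq_zero hg (y m)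
    · obtain ⟨j, hj⟩ := h.exists_ne (hy0 m)
      refine ⟨j, ?_⟩
      rw [MvPolynomial.aeval_def]
      exact hj
    · refine ⟨l1, ?_⟩
      rw [MvPolynomial.aeval_def]
      have h3 := hm.1
      intro h4
      apply h3
      show ((H l1).eval₂ (Polynomial.C.comp (algebraMap K L)) P).eval (y m) = 0
      rw [eval_eval₂]
      exact h4
    · intro i
      let c : Fin N → L := fun a => (P i).coeff a
      refine ⟨fun a => if c a = 0 then 0 else 1, fun a => if hc : c a = 0 then 1 else
        Units.mk0 (c a * y m ^ (a : ℕ)) (mul_ne_zero hc (pow_ne_zero _ (hy0 m))), ?_, ?_, ?_⟩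
      · intro a
        dsimp only
        split_ifs
        · rw [logHeight₁_zero]
        · rw [logHeight₁_one]
      · intro a
        dsimp only
        by_cases hc : c a = 0
        · rw [dif_pos hc]
          exact (S.unit L).one_mem
        · rw [dif_neg hc]
          intro v hv
          rw [Units.val_mk0, ← fv_one_iff, map_mul, hP v hv i a hc, one_mul]
          show fv v (((2 : L) ^ m) ^ (a : ℕ)) = 1
          rw [← pow_mul]
          exact h2 v hv _
      · show (P i).eval (y m) = _
        rw [Polynomial.eval_eq_sum_range' (n := N) (by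
          have h3 : (P i).natDegree ≤ ∑ i, (P i).natDegree :=
            Finset.single_le_sum (f := fun i => (P i).natDegree) (fun _ _ => Nat.zero_le _)
              (Finset.mem_univ i)
          show (P i).natDegree < ∑ i, (P i).natDegree + 1
          omega), ← Fin.sum_univ_eq_sum_range]
        refine Finset.sum_congr rfl fun a _ => ?_
        dsimp only
        by_cases hc : c a = 0
        · rw [if_pos hc, zero_mul]
          show c a * _ = 0
          rw [hc, zero_mul]
        · rw [if_neg hc, dif_neg hc, one_mul, Units.val_mk0]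
    · rw [ho_eq S hSf, neg_nonpos]
      refine ho_nonneg _ _ fun v hv => ?_
      rw [inr_mem] at hv
      have h3 := h.bezout (y m)
      have h4 : fv v (y m ^ M) = 1 := by
        show fv v (((2 : L) ^ m) ^ M) = 1
        rw [← pow_mul]
        exact h2 v hv _
      rw [← h4, ← h3]
      have hw : (Finset.univ : Finset (Fin w)).Nonempty := by
        obtain ⟨j, _⟩ := h.exists_ne (hy0 m)
        exact ⟨j, Finset.mem_univ j⟩
      obtain ⟨j, -, hj⟩ := (fv_na v).finset_image_add_of_nonempty (fun j => (B j).eval (y m) *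
        (F j).eval₂ (algebraMap K L) (fun i => (P i).eval (y m))) hw
      refine hj.trans ?_
      rw [map_mul]
      refine (mul_le_of_le_one_left ((fv v).nonneg _) (hB1 v hv j m)).trans ?_
      have h5 := le_nm (fv v) (fun j => MvPolynomial.aeval (x m) (F j)) j
      rw [MvPolynomial.aeval_def] at h5
      exact h5
  -- a point which occurs infinitely often
  have hfinite := hfin L S hSf N
  have hmaps : Set.MapsTo Q A {p | IsSparsePoint G F H L S N 0 p} := hQ
  obtain ⟨p, -, hp⟩ := Set.Infinite.exists_ne_map_eq_of_mapsTo hgood hmaps hfinite |> fun _ =>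
    (show ∃ p, p ∈ {p | IsSparsePoint G F H L S N 0 p} ∧ {m ∈ A | Q m = p}.Infinite by
      by_contra hno
      push Not at hno
      apply hgood
      have h6 : A ⊆ ⋃ p ∈ {p | IsSparsePoint G F H L S N 0 p}, {m ∈ A | Q m = p} := by
        intro m hm
        simp only [Set.mem_iUnion]
        exact ⟨Q m, hQ m hm, hm, rfl⟩
      exact (hfinite.biUnion fun p hp => hno p hp).subset h6)
  obtain ⟨m1, hm1, hQ1⟩ := hp.nonempty
  have hx1 := hx0 m1 hm1
  have hprop : ∀ i j, P i * Polynomial.C (x m1 j) = P j * Polynomial.C (x m1 i) := by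
    intro i j
    by_contra hcon
    have h3 : P i * Polynomial.C (x m1 j) - P j * Polynomial.C (x m1 i) ≠ 0 := sub_ne_zero.2 hcon
    apply hp
    have h4 : ((P i * Polynomial.C (x m1 j) - P j * Polynomial.C (x m1 i)).roots.toFinset :
      Set L).Finite := Finset.finite_toSet _
    refine (h4.preimage hyinj.injOn).subset fun m hm => ?_
    rw [Set.mem_preimage, Finset.mem_coe, Multiset.mem_toFinset, Polynomial.mem_roots h3, Polynomial.IsRoot.def,
      Polynomial.eval_sub, Polynomial.eval_mul, Polynomial.eval_mul, Polynomial.eval_C,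
      Polynomial.eval_C]
    have h5 : Q m = Q m1 := hm.2.trans hQ1.symm
    have h6 : Q m = Projectivization.mk L (x m) (hx0 m hm.1) := dif_pos (hx0 m hm.1)
    have h7 : Q m1 = Projectivization.mk L (x m1) hx1 := dif_pos hx1
    rw [h6, h7, Projectivization.mk_eq_mk_iff'] at h5
    obtain ⟨a, ha⟩ := h5
    have h8 : ∀ i, (P i).eval (y m) = a * x m1 i := fun i => (congrFun ha i).symm
    rw [h8 i, h8 j]
    ring
  obtain ⟨j1, hj1⟩ := Function.ne_iff.1 hx1
  have hj1' : x m1 j1 ≠ 0 := hj1
  apply hne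
  have h9 : ∀ s i, (P i).eval s * x m1 j1 = (P j1).eval s * x m1 i := by
    intro s i
    have := congrArg (Polynomial.eval s) (hprop i j1)
    rwa [Polynomial.eval_mul, Polynomial.eval_mul, Polynomial.eval_C, Polynomial.eval_C] at this
  have e1 := h9 s1 i0
  have e2 := h9 s1 j0
  have e3 := h9 t2 i0
  have e4 := h9 t2 j0
  apply mul_right_cancel₀ (mul_ne_zero hj1' hj1')
  calc (P i0).eval s1 * (P j0).eval t2 * (x m1 j1 * x m1 j1) =
      ((P i0).eval s1 * x m1 j1) * ((P j0).eval t2 * x m1 j1) := by ring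
    _ = ((P j1).eval s1 * x m1 i0) * ((P j1).eval t2 * x m1 j0) := by rw [e1, e4]
    _ = ((P j1).eval s1 * x m1 j0) * ((P j1).eval t2 * x m1 i0) := by ring
    _ = ((P j0).eval s1 * x m1 j1) * ((P i0).eval t2 * x m1 j1) := by rw [e2, e3]
    _ = _ := by ring

end points

/-- **The equivalence.** -/
theorem tfae [NumberField K] (G : Set (MvPolynomial (Fin (n + 1)) K))
    (F : Fin w → MvPolynomial (Fin (n + 1)) K) (H : Fin r → MvPolynomial (Fin (n + 1)) K)
    (hG : ∀ g ∈ G, ∃ d, g.IsHomogeneous d) (hF : ∀ j, ∃ d, (F j).IsHomogeneous d)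
    (hH : ∀ l, ∃ d, (H l).IsHomogeneous d) :
    List.TFAE [CurvesIn G F H, CurvesInAlg G F H, HeightBound G F H, FiniteAll G F H,
      FiniteUnits G F H] := by
  have hspec : ∀ (Q : Prop), (∀ (L : Type) [Field L] [NumberField L] [Algebra K L]
      (P : Fin (n + 1) → Polynomial L) (B : Fin w → Polynomial L) (M : ℕ),
      Cert G F H (algebraMap K L) P B M → ¬ Q) → Q → CurvesIn G F H := by
    intro Q hQ hq Ω _ _ ψ P h1 h2
    by_contra h3
    obtain ⟨L, _, _, _, P', B, M, hcert⟩ := specialise G F H ψ P h1 h2 h3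
    exact hQ L P' B M hcert hq
  tfae_have 1 → 3 := height_bound G F H hG hF hH
  tfae_have 3 → 4 := finite_of_height G F H
  tfae_have 4 → 5 := units_of_finite G F H
  tfae_have 5 → 1 := hspec _ fun L _ _ _ P B M hcert => pts hcert
  tfae_have 1 → 2 := fun h => h (AlgebraicClosure K) (algebraMap K (AlgebraicClosure K))
  tfae_have 2 → 1 := hspec _ fun L _ _ _ P B M hcert => by
    have : Algebra.IsAlgebraic K L := Algebra.IsAlgebraic.tower_top (K := ℚ) K
    exact not_alg hcert
  tfae_finish

end Pool.Agent.D0H85.SP
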