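import Pool.Agent.D0H85.SP.Curve

/-!
Sparse points on varieties without curves: the main argument.
-/

set_option autoImplicit false
set_option linter.unusedSectionVars false

namespace Pool.Agent.D0H85.SP

open NumberField IsDedekindDomain Height Filter Topology
open Pool.Agent.W180.OP (Pl av wt fv fv_support_finite wt_nonneg)
open Pool.Agent.K1H83.VN

/-- There is a nonconstant map from the punctured line to the projective variety with the equations
`G`, outside the common zeros of the `F j`, whose image is not in the common zeros of the `H l`: it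
is given by polynomials `P i` over an algebraically closed field. -/
def HasCurve {k : Type} [Field k] {n w r : ℕ} (GG : Set (MvPolynomial (Fin (n + 1)) k))
    (F : Fin w → MvPolynomial (Fin (n + 1)) k) (H : Fin r → MvPolynomial (Fin (n + 1)) k) : Prop :=
  ∃ (L : Type) (_ : Field L) (_ : IsAlgClosed L) (ψ : k →+* L) (P : Fin (n + 1) → Polynomial L),
    (∀ t : L, t ≠ 0 → (∀ g ∈ GG, g.eval₂ ψ (fun i => (P i).eval t) = 0) ∧
      ∃ j, (F j).eval₂ ψ (fun i => (P i).eval t) ≠ 0) ∧
    (∃ s t : L, s ≠ 0 ∧ t ≠ 0 ∧ ∃ i j, (P i).eval s * (P j).eval t ≠ (P j).eval s * (P i).eval t) ∧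
    ∃ t : L, t ≠ 0 ∧ ∃ l, (H l).eval₂ ψ (fun i => (P i).eval t) ≠ 0

variable {k : Type} [Field k] [NumberField k] {σ : Sc} {S : Finset (Pl k)}

/-- the sizes of sums of units with small coefficients outside of `S` -/
theorem fv_sum_le {ι : Type} [Fintype ι] (c u : ι → k) (hu : ∀ i, IsSU S (u i))
    (v : HeightOneSpectrum (𝓞 k)) (hv : Sum.inr v ∉ S) {κ : Type} [Finite κ] (z : κ → k)
    (hz : ∀ i, ∃ a, c i = z a) :
    fv v (∑ i, c i * u i) ≤ nm (fv v) (c1 z) := by
  classical
  rcases isEmpty_or_nonempty ι with h | h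
  · rw [Fintype.sum_empty, map_zero]
    exact nm_nonneg _ _
  · obtain ⟨i, -, hi⟩ := (fv_na v).finset_image_add_of_nonempty (fun i => c i * u i)
      (Finset.univ_nonempty (α := ι))
    refine hi.trans ?_
    rw [map_mul, (hu i).2 v hv, mul_one]
    obtain ⟨a, ha⟩ := hz i
    rw [ha]
    exact le_nm (fv v) (c1 z) (some a)

/-- **The main step.** -/
theorem core (hS : ∀ w : InfinitePlace k, Sum.inl w ∈ S) {n N w r : ℕ}
    (GG : Set (MvPolynomial (Fin (n + 1)) k)) (hGG : ∀ g ∈ GG, ∃ d, g.IsHomogeneous d)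
    (F : Fin w → MvPolynomial (Fin (n + 1)) k) (hF : ∀ j, ∃ d, (F j).IsHomogeneous d)
    (H : Fin r → MvPolynomial (Fin (n + 1)) k) (hH : ∀ l, ∃ d, (H l).IsHomogeneous d)
    (x : Fin (n + 1) → ℕ → k) (a u : Fin (n + 1) → Fin N → ℕ → k)
    (hx : ∀ i t, x i t = ∑ j, a i j t * u i j t) (hu : ∀ i j t, IsSU S (u i j t))
    (ha : ∀ i j, Sm σ fun t => logHeight₁ (a i j t))
    (hL : ∀ t, σ.L t = logHeight fun i => x i t)
    (hg : ∀ g ∈ GG, ∀ t, g.eval (fun i => x i t) = 0)
    (hFx : ∀ t, ∃ j, (F j).eval (fun i => x i t) ≠ 0)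
    (hFs : Sm σ fun t => -ho S fun j => (F j).eval (fun i => x i t))
    (hHx : ∀ t, ∃ l, (H l).eval (fun i => x i t) ≠ 0) : HasCurve GG F H := by
  classical
  -- the germs
  let X : Fin (n + 1) → G k σ := fun i => gm σ (x i)
  let A : Fin (n + 1) → Fin N → FF k σ := fun i j => ⟨gm σ (a i j), (gm_mem_FF _).2 (ha i j)⟩
  let U : Fin (n + 1) × Fin N → G k σ := fun p => gm σ (u p.1 p.2)
  have hUS : ∀ p, SU S (U p) := by
    intro p
    filter_upwards [rep_gm (σ := σ) (u p.1 p.2)] with t ht
    show IsSU S (rep (gm σ (u p.1 p.2)) t)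
    rw [ht]
    exact hu _ _ _
  have hU0 : ∀ p, U p ≠ 0 := fun p => (hUS p).ne_zero
  have hXs : ∀ i, X i = ∑ j, (A i j : G k σ) * U (i, j) := by
    intro i
    have h1 : x i = ∑ j, a i j * u i j := by
      funext t
      rw [Finset.sum_apply]
      exact hx i t
    show gm σ (x i) = ∑ j, gm σ (a i j) * gm σ (u i j)
    rw [h1, map_sum]
    exact Finset.sum_congr rfl fun j _ => map_mul _ _ _
  -- a basis of the units
  obtain ⟨s, b, m, hind, hm⟩ := exists_basis U hU0 (FF k σ) fun x n hn h => root_mem x n hn h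
  set e : Fin s → G k σ := fun i => pw U (b i) with he
  have heS : ∀ i, SU S (e i) := fun i => SU.prod _ _ fun j _ => (hUS j).zpow _
  have he0 : ∀ i, e i ≠ 0 := fun i => (heS i).ne_zero
  obtain ⟨M, hM⟩ : ∃ M : ℕ, ∀ p i, 0 ≤ m p i + M := by
    refine ⟨∑ p, ∑ i, (m p i).natAbs, fun p i => ?_⟩
    have h1 : (m p i).natAbs ≤ ∑ i, (m p i).natAbs :=
      Finset.single_le_sum (f := fun i => (m p i).natAbs) (fun _ _ => Nat.zero_le _)
        (Finset.mem_univ i)
    have h2 : ∑ i, (m p i).natAbs ≤ ∑ p, ∑ i, (m p i).natAbs :=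
      Finset.single_le_sum (f := fun p => ∑ i, (m p i).natAbs) (fun _ _ => Nat.zero_le _)
        (Finset.mem_univ p)
    have h3 : -(m p i) ≤ ((m p i).natAbs : ℤ) := by omega
    have h4 : ((m p i).natAbs : ℤ) ≤ ((∑ p, ∑ i, (m p i).natAbs : ℕ) : ℤ) := by
      exact_mod_cast h1.trans h2
    omega
  set E0 : G k σ := ∏ i, e i ^ M with hE0
  have hE0S : SU S E0 := SU.prod _ _ fun i _ => (heS i).pow _
  have hE00 : E0 ≠ 0 := hE0S.ne_zero
  let c : Fin (n + 1) × Fin N → FF k σ := fun p => ⟨U p / ∏ i, e i ^ m p i, hm p⟩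
  let m' : Fin (n + 1) × Fin N → Fin s →₀ ℕ := fun p =>
    Finsupp.equivFunOnFinite.symm fun i => (m p i + M).toNat
  have hUc : ∀ p, U p * E0 = (c p : G k σ) * ∏ i, e i ^ m' p i := by
    intro p
    have h1 : ∏ i, e i ^ m' p i = (∏ i, e i ^ m p i) * E0 := by
      rw [hE0, ← Finset.prod_mul_distrib]
      refine Finset.prod_congr rfl fun i _ => ?_
      have h2 : (m' p i : ℤ) = m p i + M := Int.toNat_of_nonneg (hM p i)
      rw [← zpow_natCast (e i) (m' p i), h2, zpow_add₀ (he0 i), zpow_natCast]
    have h3 : ∏ i, e i ^ m p i ≠ 0 := Finset.prod_ne_zero_iff.2 fun i _ => zpow_ne_zero _ (he0 i)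
    rw [h1]
    show U p * E0 = U p / (∏ i, e i ^ m p i) * ((∏ i, e i ^ m p i) * E0)
    field_simp
  -- the polynomials
  let φ : Fin (n + 1) → MvPolynomial (Fin s) (FF k σ) := fun i =>
    ∑ j, MvPolynomial.monomial (m' (i, j)) (A i j * c (i, j))
  have hφ : ∀ i, evg e (φ i) = E0 * X i := by
    intro i
    show evg e (∑ j, MvPolynomial.monomial (m' (i, j)) (A i j * c (i, j))) = _
    rw [map_sum, hXs, Finset.mul_sum]
    refine Finset.sum_congr rfl fun j _ => ?_
    rw [evg_monomial, MulMemClass.coe_mul, mul_assoc, ← hUc]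
    ring
  let κ0 : k →+* MvPolynomial (Fin s) (FF k σ) := MvPolynomial.C.comp (algebraMap k (FF k σ))
  have hev : ∀ (g : MvPolynomial (Fin (n + 1)) k) (d : ℕ), g.IsHomogeneous d →
      evg e (g.eval₂ κ0 φ) = E0 ^ d * gm σ (fun t => g.eval (fun i => x i t)) := by
    intro g d hg
    rw [MvPolynomial.hom_eval₂]
    have h1 : (evg e).comp κ0 = algebraMap k (G k σ) := by
      refine RingHom.ext fun z => ?_
      show evg e (MvPolynomial.C (algebraMap k (FF k σ) z)) = _
      rw [evg_C]
      rfl
    have h2 : (fun i => (evg e) (φ i)) = fun i => E0 * X i := by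
      funext i
      exact hφ i
    rw [h1, h2, eval₂_smul _ g d hg, eval_gm]
  have hinj := evg_inj hS e heS hind
  -- weights
  obtain ⟨l, hl⟩ := exists_weights (Finset.univ.biUnion fun i => (φ i).support)
  set D : Finset (Fin s →₀ ℕ) := Finset.univ.biUnion fun i => (φ i).support with hD
  have hφD : ∀ i, (φ i).support ⊆ D := fun i =>
    Finset.subset_biUnion_of_mem (fun i => (φ i).support) (Finset.mem_univ i)
  -- the field
  let R := MvPolynomial (Fin s) (FF k σ)
  let L := AlgebraicClosure (FractionRing R)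
  let ρ : R →+* L := (algebraMap (FractionRing R) L).comp (algebraMap R (FractionRing R))
  have hρ : Function.Injective ρ :=
    (algebraMap (FractionRing R) L).injective.comp (IsFractionRing.injective R (FractionRing R))
  let P : Fin (n + 1) → Polynomial L := fun i => (Th l (φ i)).map ρ
  let τ : L → R →+* L := fun t => (Polynomial.eval₂RingHom ρ t).comp (Th l)
  have hτP : ∀ t i, (P i).eval t = τ t (φ i) := by
    intro t i
    show ((Th l (φ i)).map ρ).eval t = (Th l (φ i)).eval₂ ρ t
    rw [Polynomial.eval_map]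
  have hτ : ∀ (t : L) (g : MvPolynomial (Fin (n + 1)) k),
      g.eval₂ (ρ.comp κ0) (fun i => (P i).eval t) = τ t (g.eval₂ κ0 φ) := by
    intro t g
    rw [MvPolynomial.hom_eval₂]
    have h1 : (τ t).comp κ0 = ρ.comp κ0 := by
      refine RingHom.ext fun z => ?_
      show (Th l (MvPolynomial.C (algebraMap k (FF k σ) z))).eval₂ ρ t = _
      rw [Th_C, Polynomial.eval₂_C]
      rfl
    have h2 : (fun i => (τ t) (φ i)) = fun i => (P i).eval t := by
      funext i
      exact (hτP t i).symm
    rw [h1, h2]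
  have hτ1 : ∀ q : R, τ 1 q = ρ q := by
    intro q
    have h1 : τ 1 = ρ := by
      apply MvPolynomial.ringHom_ext
      · intro z
        show (Th l (MvPolynomial.C z)).eval₂ ρ 1 = _
        rw [Th_C, Polynomial.eval₂_C]
      · intro i
        show (Th l (MvPolynomial.X i)).eval₂ ρ 1 = _
        rw [Th_X]
        simp
    rw [h1]
  have hgm0 : ∀ f : ℕ → k, gm σ f ≠ 0 ↔ ∀ᶠ t in (σ.𝒰 : Filter ℕ), f t ≠ 0 := gm_ne
  refine ⟨L, inferInstance, inferInstance, ρ.comp κ0, P, ?_, ?_, ?_⟩
  · intro t ht
    refine ⟨?_, ?_⟩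
    · -- the equations
      intro g hgG
      obtain ⟨d, hd⟩ := hGG g hgG
      rw [hτ]
      have h1 : g.eval₂ κ0 φ = 0 := by
        apply hinj
        rw [hev g d hd]
        have h2 : (fun t => g.eval (fun i => x i t)) = fun _ => 0 := by
          funext t
          exact hg g hgG t
        rw [h2]
        have h3 : gm σ (fun _ : ℕ => (0 : k)) = 0 := map_zero (gm σ)
        rw [h3, mul_zero]
      rw [h1, map_zero]
    · -- the boundary
      by_contra hno
      push Not at hno
      simp only [hτ] at hno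
      choose dF hdF using hF
      let f : Fin w → R := fun j => (F j).eval₂ κ0 φ
      choose jt hjt using hFx
      obtain ⟨j1, -, hj1⟩ := const_of_finite (σ := σ) jt Set.univ Set.finite_univ
        (Eventually.of_forall fun _ => Set.mem_univ _)
      have hf1 : f j1 ≠ 0 := by
        intro h0
        have h1 := hev (F j1) (dF j1) (hdF j1)
        have h2 : evg e (f j1) = 0 := by rw [h0, map_zero]
        rw [show (F j1).eval₂ κ0 φ = f j1 from rfl, h2] at h1
        have h3 := (mul_eq_zero.1 h1.symm).resolve_left (pow_ne_zero _ hE00)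
        have h4 : gm σ (fun t => (F j1).eval (fun i => x i t)) ≠ 0 := by
          rw [hgm0]
          filter_upwards [hj1] with t ht
          rw [← ht]
          exact hjt t
        exact h4 h3
      obtain ⟨q, hq, hqm⟩ := exists_factor l ρ hρ t ht f j1 hf1 hno
      choose y hy using hq
      apply evg_nonunit hS e heS hind q hqm
      have hq0 : q ≠ 0 := by
        rintro rfl
        exact hqm 0 0 (by rw [map_zero])
      have hQ0 : evg e q ≠ 0 := fun h0 => hq0 (hinj q h0)
      -- the coefficients of the cofactors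
      let κ := Σ j : Fin w, {z // z ∈ (y j).support}
      let z : κ → G k σ := fun p => (((y p.1).coeff p.2.1 : FF k σ) : G k σ)
      have hz : Sm σ fun t => ∑ p, logHeight₁ (rep (z p) t) :=
        Sm.sum _ fun p _ => ((y p.1).coeff p.2.1).2
      refine (hFs.add hz).mono ?_
      have h1 : ∀ᶠ t in (σ.𝒰 : Filter ℕ), ∀ j, rep E0 t ^ dF j * (F j).eval (fun i => x i t) =
          rep (evg e q) t * rep (evg e (y j)) t := by
        rw [Filter.eventually_all]
        intro j
        have h2 : gm σ (fun t => rep E0 t ^ dF j * (F j).eval (fun i => x i t)) =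
            gm σ (fun t => rep (evg e q) t * rep (evg e (y j)) t) := by
          have h3 : (fun t => rep E0 t ^ dF j * (F j).eval (fun i => x i t)) =
              (rep E0) ^ dF j * (fun t => (F j).eval (fun i => x i t)) := rfl
          have h4 : (fun t => rep (evg e q) t * rep (evg e (y j)) t) =
              rep (evg e q) * rep (evg e (y j)) := rfl
          rw [h3, h4, map_mul, map_mul, map_pow, gm_rep, gm_rep, gm_rep, ← hev _ _ (hdF j),
            ← map_mul, ← hy j]
        exact (gm_eq _ _).1 h2
      have h2 : ∀ᶠ t in (σ.𝒰 : Filter ℕ), ∀ j, rep (evg e (y j)) t =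
          ∑ mm : (y j).support, rep (z ⟨j, mm⟩) t * rep (∏ i, e i ^ mm.1 i) t := by
        rw [Filter.eventually_all]
        intro j
        have h3 : gm σ (rep (evg e (y j))) = gm σ (fun t =>
            ∑ mm : (y j).support, rep (z ⟨j, mm⟩) t * rep (∏ i, e i ^ mm.1 i) t) := by
          rw [gm_rep, evg_eq]
          have h4 : (fun t => ∑ mm : (y j).support, rep (z ⟨j, mm⟩) t *
              rep (∏ i, e i ^ mm.1 i) t) =
              ∑ mm : (y j).support, rep (z ⟨j, mm⟩) * rep (∏ i, e i ^ mm.1 i) := by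
            funext t
            rw [Finset.sum_apply]
            rfl
          rw [h4, map_sum]
          refine Finset.sum_congr rfl fun mm _ => ?_
          rw [map_mul, gm_rep, gm_rep]
        exact (gm_eq _ _).1 h3
      have h3 : ∀ᶠ t in (σ.𝒰 : Filter ℕ), ∀ j, ∀ mm : (y j).support,
          IsSU S (rep (∏ i, e i ^ mm.1 i) t) := by
        rw [Filter.eventually_all]
        intro j
        rw [Filter.eventually_all]
        intro mm
        exact SU.prod _ _ fun i _ => (heS i).pow _
      filter_upwards [h1, h2, h3, rep_ne _ hQ0, hE0S] with t e1 e2 e3 e4 e5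
      unfold ns lv
      rw [prod_formula S hS _ e4]
      have e6 : ho S (fun j => (F j).eval (fun i => x i t)) ≤
          ho S (fun _ : Unit => rep (evg e q) t) + ho S (c1 fun p => rep (z p) t) := by
        refine ho_mul_le S _ ?_ _ (ne_of_coord (i := ()) e4) _ (ne_of_one _ none rfl) ?_
        · exact ne_of_coord (i := jt t) (hjt t)
        · intro v hv
          refine nm_le _ (mul_nonneg (nm_nonneg _ _) (nm_nonneg _ _)) fun j => ?_
          rw [nm_unit]
          have e7 : fv v ((F j).eval (fun i => x i t)) =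
              fv v (rep (evg e q) t) * fv v (rep (evg e (y j)) t) := by
            rw [← map_mul, ← e1 j, map_mul, map_pow, e5.2 v hv, one_pow, one_mul]
          rw [e7]
          refine mul_le_mul_of_nonneg_left ?_ ((fv v).nonneg _)
          rw [e2 j]
          exact fv_sum_le _ _ (e3 j) v hv _ fun mm => ⟨⟨j, mm⟩, rfl⟩
      have e8 : ho S (c1 fun p => rep (z p) t) ≤ ∑ p, logHeight₁ (rep (z p) t) :=
        (ho_le_height S hS _ none rfl).trans (logHeight_c1 _)
      linarith
  · -- the curve is not constant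
    by_contra hno
    push Not at hno
    have hx0 : ∃ i0, X i0 ≠ 0 := by
      by_contra h0
      push Not at h0
      have h1 : ∀ᶠ t in (σ.𝒰 : Filter ℕ), ∀ i, x i t = 0 := by
        rw [Filter.eventually_all]
        intro i
        have h2 : gm σ (x i) = gm σ 0 := by
          rw [map_zero]
          exact h0 i
        exact (gm_eq _ _).1 h2
      obtain ⟨t, h2, h3⟩ := (h1.and (L_pos (σ := σ))).exists
      rw [hL t] at h3
      have h4 : (fun i => x i t) = 0 := funext h2
      rw [h4, logHeight_zero] at h3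
      exact lt_irrefl _ h3
    obtain ⟨i0, hi0⟩ := hx0
    have hφ0 : φ i0 ≠ 0 := by
      intro h0
      have h1 := hφ i0
      rw [h0, map_zero] at h1
      exact mul_ne_zero hE00 hi0 h1.symm
    have hcurve : ∀ j, Th l (φ i0) * Polynomial.C (φ j) = Th l (φ j) * Polynomial.C (φ i0) := by
      intro j
      apply Polynomial.map_injective ρ hρ
      rw [Polynomial.map_mul, Polynomial.map_mul, Polynomial.map_C, Polynomial.map_C]
      have h1 : (P i0 * Polynomial.C (ρ (φ j)) - P j * Polynomial.C (ρ (φ i0))) * Polynomial.X =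
          0 := by
        apply Polynomial.funext
        intro t
        rw [Polynomial.eval_mul, Polynomial.eval_sub, Polynomial.eval_mul, Polynomial.eval_mul,
          Polynomial.eval_C, Polynomial.eval_C, Polynomial.eval_X, Polynomial.eval_zero]
        by_cases ht : t = 0
        · rw [ht, mul_zero]
        · have h2 := hno t 1 ht one_ne_zero i0 j
          rw [hτP 1 j, hτP 1 i0, hτ1, hτ1] at h2
          rw [h2, sub_self, zero_mul]
      have h3 := (mul_eq_zero.1 h1).resolve_right Polynomial.X_ne_zero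
      exact sub_eq_zero.1 h3
    have hprop := const_curve l D hl φ hφD i0 hφ0 hcurve
    choose cc hcc using hprop
    have hXc : ∀ j, X j = (cc j : G k σ) * X i0 := by
      intro j
      have h1 := hφ j
      rw [hcc j, map_mul, evg_C, hφ i0] at h1
      have h2 : E0 * X j = E0 * ((cc j : G k σ) * X i0) := by
        rw [← h1]
        ring
      exact mul_left_cancel₀ hE00 h2
    have h1 : ∀ᶠ t in (σ.𝒰 : Filter ℕ), ∀ j, x j t = rep (cc j : G k σ) t * x i0 t := by
      rw [Filter.eventually_all]
      intro j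
      have h2 : gm σ (x j) = gm σ (rep (cc j : G k σ) * x i0) := by
        rw [map_mul, gm_rep]
        exact hXc j
      exact (gm_eq _ _).1 h2
    have h2 : ∀ᶠ t in (σ.𝒰 : Filter ℕ), x i0 t ≠ 0 := (gm_ne _).1 hi0
    have h3 : Sm σ fun t => ∑ j, logHeight₁ (rep (cc j : G k σ) t) :=
      Sm.sum _ fun j _ => (cc j).2
    obtain ⟨t, e1, e2, e3, e4⟩ := (h1.and (h2.and ((h3 (1 / 2) (by norm_num)).and
      (L_pos (σ := σ))))).exists
    have e5 : (fun i => x i t) = x i0 t • fun j => rep (cc j : G k σ) t := by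
      funext j
      rw [e1 j, Pi.smul_apply, smul_eq_mul, mul_comm]
    have e6 : logHeight (fun i => x i t) = logHeight fun j => rep (cc j : G k σ) t := by
      rw [e5, logHeight_smul_eq_logHeight _ e2]
    have e7 := logHeight_le_sum fun j => rep (cc j : G k σ) t
    have e8 := hL t
    rw [e6] at e8
    linarith
  · -- the curve is not in the exceptional set
    choose dH hdH using hH
    choose lt hlt using hHx
    obtain ⟨l1, -, hl1⟩ := const_of_finite (σ := σ) lt Set.univ Set.finite_univ
      (Eventually.of_forall fun _ => Set.mem_univ _)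
    refine ⟨1, one_ne_zero, l1, ?_⟩
    rw [hτ, hτ1]
    intro h0
    have h1 : (H l1).eval₂ κ0 φ = 0 := hρ (by rw [h0, map_zero])
    have h2 := hev (H l1) (dH l1) (hdH l1)
    rw [h1, map_zero] at h2
    have h3 := (mul_eq_zero.1 h2.symm).resolve_left (pow_ne_zero _ hE00)
    have h4 : gm σ (fun t => (H l1).eval (fun i => x i t)) ≠ 0 := by
      rw [hgm0]
      filter_upwards [hl1] with t ht
      rw [← ht]
      exact hlt t
    exact h4 h3

end Pool.Agent.D0H85.SP
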