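import Pool.Agent.D0H85.SP.Sui
import Pool.Agent.D0H85.SP.Alg
import Pool.Agent.D0H85.SP.Basis

/-!
From sparse points to curves.
-/

set_option autoImplicit false
set_option linter.unusedSectionVars false

namespace Pool.Agent.D0H85.SP

open NumberField IsDedekindDomain Height Filter Topology
open Pool.Agent.W180.OP (Pl av wt fv fv_support_finite wt_nonneg)
open Pool.Agent.K1H83.VN

/-- scaling of the variables of a form -/
theorem eval₂_smul {K L σ : Type} [CommRing K] [CommRing L] (f : K →+* L) (g : MvPolynomial σ K)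
    (d : ℕ) (hg : g.IsHomogeneous d) (c : L) (x : σ → L) :
    g.eval₂ f (fun i => c * x i) = c ^ d * g.eval₂ f x := by
  rw [MvPolynomial.eval₂_eq, MvPolynomial.eval₂_eq, Finset.mul_sum]
  refine Finset.sum_congr rfl fun m hm => ?_
  have h1 : ∑ i ∈ m.support, m i = d := by
    have h2 := hg.degree_eq_sum_deg_support hm
    rw [← h2]
  have h3 : ∏ i ∈ m.support, (c * x i) ^ m i = c ^ d * ∏ i ∈ m.support, x i ^ m i := by
    simp only [mul_pow]
    rw [Finset.prod_mul_distrib, Finset.prod_pow_eq_pow_sum, h1]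
  rw [h3]
  ring

section germ

variable {k : Type} [Field k] [NumberField k] {σ : Sc}

/-- values of polynomials at germs -/
theorem eval_gm {ι : Type} (x : ι → ℕ → k) (g : MvPolynomial ι k) :
    g.eval₂ (algebraMap k (G k σ)) (fun i => gm σ (x i)) =
      gm σ (fun t => MvPolynomial.eval (fun i => x i t) g) := by
  have h1 : (fun t => MvPolynomial.eval (fun i => x i t) g) =
      g.eval₂ (Pi.constRingHom ℕ k) x := by
    funext t
    have h2 := MvPolynomial.hom_eval₂ g (Pi.constRingHom ℕ k) (Pi.evalRingHom (fun _ => k) t) x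
    have h3 : (Pi.evalRingHom (fun _ : ℕ => k) t) (g.eval₂ (Pi.constRingHom ℕ k) x) =
        g.eval₂ (Pi.constRingHom ℕ k) x t := rfl
    rw [← h3, h2]
    rfl
  rw [h1]
  have h4 := MvPolynomial.hom_eval₂ g (Pi.constRingHom ℕ k) (gm σ) x
  rw [h4]
  rfl

variable {s : ℕ}

/-- evaluation at germs -/
noncomputable def evg (e : Fin s → G k σ) : MvPolynomial (Fin s) (FF k σ) →+* G k σ :=
  MvPolynomial.eval₂Hom (FF k σ).subtype e

theorem evg_C (e : Fin s → G k σ) (c : FF k σ) : evg e (MvPolynomial.C c) = (c : G k σ) := by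
  unfold evg
  rw [MvPolynomial.coe_eval₂Hom, MvPolynomial.eval₂_C]
  rfl

theorem evg_monomial (e : Fin s → G k σ) (m : Fin s →₀ ℕ) (c : FF k σ) :
    evg e (MvPolynomial.monomial m c) = (c : G k σ) * ∏ i, e i ^ m i := by
  unfold evg
  rw [MvPolynomial.coe_eval₂Hom, MvPolynomial.eval₂_monomial, Finsupp.prod_fintype _ _ (by simp)]
  rfl

theorem evg_eq (e : Fin s → G k σ) (p : MvPolynomial (Fin s) (FF k σ)) :
    evg e p = ∑ m : p.support, ((p.coeff m.1 : FF k σ) : G k σ) * ∏ i, e i ^ m.1 i := by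
  conv_lhs => rw [MvPolynomial.as_sum p]
  rw [map_sum, ← Finset.sum_coe_sort p.support
    (fun m => evg e (MvPolynomial.monomial m (p.coeff m)))]
  exact Finset.sum_congr rfl fun m _ => evg_monomial e _ _

variable {S : Finset (Pl k)}

/-- the quotients of monomials -/
theorem mono_ne (e : Fin s → G k σ) (he0 : ∀ i, e i ≠ 0)
    (hind : ∀ a : Fin s → ℤ, ∏ i, e i ^ a i ∈ FF k σ → a = 0) (m m' : Fin s →₀ ℕ) (h : m ≠ m') :
    (∏ i, e i ^ m i) / (∏ i, e i ^ m' i) ∉ FF k σ := by
  intro hF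
  apply h
  have h1 : (∏ i, e i ^ m i) / (∏ i, e i ^ m' i) = ∏ i, e i ^ ((m i : ℤ) - (m' i : ℤ)) := by
    rw [← Finset.prod_div_distrib]
    refine Finset.prod_congr rfl fun i _ => ?_
    rw [zpow_sub₀ (he0 i), zpow_natCast, zpow_natCast]
  rw [h1] at hF
  have h2 := hind _ hF
  ext i
  have h3 := congrFun h2 i
  simp only [Pi.zero_apply] at h3
  omega

theorem evg_inj (hS : ∀ w : InfinitePlace k, Sum.inl w ∈ S) (e : Fin s → G k σ)
    (he : ∀ i, SU S (e i)) (hind : ∀ a : Fin s → ℤ, ∏ i, e i ^ a i ∈ FF k σ → a = 0)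
    (p : MvPolynomial (Fin s) (FF k σ)) (h : evg e p = 0) : p = 0 := by
  rw [evg_eq] at h
  have h1 := sui' hS _ (ι := p.support) le_rfl (fun m => ∏ i, e i ^ m.1 i)
    (fun m => SU.prod _ _ fun i _ => (he i).pow _)
    (fun m m' hmm' => mono_ne e (fun i => (he i).ne_zero) hind _ _ fun h => hmm' (Subtype.ext h))
    (fun m => ((p.coeff m.1 : FF k σ) : G k σ)) (fun m => (p.coeff m.1).2) h
  by_contra hp
  obtain ⟨m, hm⟩ := MvPolynomial.ne_zero_iff.1 hp
  have h2 := h1 ⟨m, MvPolynomial.mem_support_iff.2 hm⟩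
  exact hm (Subtype.ext h2)

/-- a polynomial which is not a monomial does not give a near unit -/
theorem evg_nonunit (hS : ∀ w : InfinitePlace k, Sum.inl w ∈ S) (e : Fin s → G k σ)
    (he : ∀ i, SU S (e i)) (hind : ∀ a : Fin s → ℤ, ∏ i, e i ^ a i ∈ FF k σ → a = 0)
    (p : MvPolynomial (Fin s) (FF k σ)) (hp : ∀ m c, p ≠ MvPolynomial.monomial m c) :
    ¬ Sm σ (ns S (evg e p)) := by
  classical
  have hp0 : p ≠ 0 := by
    intro h
    apply hp 0 0
    rw [h, map_zero]
  obtain ⟨m, hm⟩ := MvPolynomial.ne_zero_iff.1 hp0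
  obtain ⟨m', hm', hne⟩ : ∃ m', p.coeff m' ≠ 0 ∧ m' ≠ m := by
    by_contra hno
    push Not at hno
    apply hp m (p.coeff m)
    refine MvPolynomial.ext _ _ fun m' => ?_
    rw [MvPolynomial.coeff_monomial]
    split_ifs with h
    · rw [h]
    · by_contra h2
      exact h (hno m' h2).symm
  rw [evg_eq]
  exact nonunit hS (ι := p.support) (fun m => ∏ i, e i ^ m.1 i)
    (fun m => SU.prod _ _ fun i _ => (he i).pow _)
    (fun m m' hmm' => mono_ne e (fun i => (he i).ne_zero) hind _ _ fun h => hmm' (Subtype.ext h))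
    (fun m => ((p.coeff m.1 : FF k σ) : G k σ)) (fun m => (p.coeff m.1).2)
    (fun m h => MvPolynomial.mem_support_iff.1 m.2 (Subtype.ext h))
    ⟨m, MvPolynomial.mem_support_iff.2 hm⟩ ⟨m', MvPolynomial.mem_support_iff.2 hm'⟩
    fun h => hne (congrArg Subtype.val h).symm

end germ

end Pool.Agent.D0H85.SP
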