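import Pool.Agent.D0H85.SP.Core

/-!
Heights of sparse points.
-/

set_option autoImplicit false
set_option linter.unusedSectionVars false

namespace Pool.Agent.D0H85.SP

open NumberField IsDedekindDomain Height Filter Topology
open scoped LinearAlgebra.Projectivization
open Pool.Agent.W180.OP (Pl av wt fv fv_support_finite wt_nonneg)
open Pool.Agent.K1H83.VN

/-- the map given by the polynomials `P` has its values in the quasi-projective variety -/
def MapsTo {K : Type} [Field K] {n w : ℕ} (G : Set (MvPolynomial (Fin (n + 1)) K))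
    (F : Fin w → MvPolynomial (Fin (n + 1)) K) {Ω : Type} [Field Ω] (ψ : K →+* Ω)
    (P : Fin (n + 1) → Polynomial Ω) : Prop :=
  ∀ t : Ω, t ≠ 0 → (∀ g ∈ G, g.eval₂ ψ (fun i => (P i).eval t) = 0) ∧
    ∃ j, (F j).eval₂ ψ (fun i => (P i).eval t) ≠ 0

/-- the map is not constant -/
def Nonconstant {n : ℕ} {Ω : Type} [Field Ω] (P : Fin (n + 1) → Polynomial Ω) : Prop :=
  ∃ s t : Ω, s ≠ 0 ∧ t ≠ 0 ∧ ∃ i j, (P i).eval s * (P j).eval t ≠ (P j).eval s * (P i).eval t

/-- the map has its values in the zeros of the `H l` -/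
def Inside {K : Type} [Field K] {n r : ℕ} (H : Fin r → MvPolynomial (Fin (n + 1)) K)
    {Ω : Type} [Field Ω] (ψ : K →+* Ω) (P : Fin (n + 1) → Polynomial Ω) : Prop :=
  ∀ t : Ω, t ≠ 0 → ∀ l, (H l).eval₂ ψ (fun i => (P i).eval t) = 0

/-- all curves over all algebraically closed fields -/
def CurvesIn {K : Type} [Field K] {n w r : ℕ} (G : Set (MvPolynomial (Fin (n + 1)) K))
    (F : Fin w → MvPolynomial (Fin (n + 1)) K) (H : Fin r → MvPolynomial (Fin (n + 1)) K) : Prop :=
  ∀ (Ω : Type) [Field Ω] [IsAlgClosed Ω] (ψ : K →+* Ω) (P : Fin (n + 1) → Polynomial Ω),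
    MapsTo G F ψ P → Nonconstant P → Inside H ψ P

/-- all curves over the algebraic closure -/
def CurvesInAlg {K : Type} [Field K] {n w r : ℕ} (G : Set (MvPolynomial (Fin (n + 1)) K))
    (F : Fin w → MvPolynomial (Fin (n + 1)) K) (H : Fin r → MvPolynomial (Fin (n + 1)) K) : Prop :=
  ∀ P : Fin (n + 1) → Polynomial (AlgebraicClosure K),
    MapsTo G F (algebraMap K (AlgebraicClosure K)) P → Nonconstant P →
      Inside H (algebraMap K (AlgebraicClosure K)) P

/-- sums of `N` products of an element of height at most `T` and an `S`-unit -/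
def Sparse {L : Type} [Field L] [NumberField L] (S : Set (HeightOneSpectrum (𝓞 L))) (N : ℕ) (T : ℝ)
    (y : L) : Prop :=
  ∃ (a : Fin N → L) (u : Fin N → Lˣ), (∀ j, logHeight₁ (a j) ≤ T) ∧ (∀ j, u j ∈ S.unit L) ∧
    y = ∑ j, a j * (u j : L)

/-- the logarithm of the norm of the greatest common divisor outside of `S` -/
noncomputable def gcdHeight {L : Type} [Field L] [NumberField L]
    (S : Set (HeightOneSpectrum (𝓞 L))) {w : ℕ} (y : Fin w → L) : ℝ :=
  ∑ᶠ (v : HeightOneSpectrum (𝓞 L)) (_ : v ∉ S), -Real.log (⨆ j, FinitePlace.mk v (y j))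

/-- sparse nearly integral points -/
def IsSparsePoint {K : Type} [Field K] {n w r : ℕ} (G : Set (MvPolynomial (Fin (n + 1)) K))
    (F : Fin w → MvPolynomial (Fin (n + 1)) K) (H : Fin r → MvPolynomial (Fin (n + 1)) K)
    (L : Type) [Field L] [NumberField L] [Algebra K L] (S : Set (HeightOneSpectrum (𝓞 L))) (N : ℕ)
    (T : ℝ) (P : ℙ L (Fin (n + 1) → L)) : Prop :=
  ∃ (x : Fin (n + 1) → L) (hx : x ≠ 0), P = Projectivization.mk L x hx ∧
    (∀ g ∈ G, MvPolynomial.aeval x g = 0) ∧ (∃ j, MvPolynomial.aeval x (F j) ≠ 0) ∧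
    (∃ l, MvPolynomial.aeval x (H l) ≠ 0) ∧ (∀ i, Sparse S N T (x i)) ∧
    gcdHeight S (fun j => MvPolynomial.aeval x (F j)) ≤ T

/-- heights -/
def HeightBound {K : Type} [Field K] {n w r : ℕ} (G : Set (MvPolynomial (Fin (n + 1)) K))
    (F : Fin w → MvPolynomial (Fin (n + 1)) K) (H : Fin r → MvPolynomial (Fin (n + 1)) K) : Prop :=
  ∀ (L : Type) [Field L] [NumberField L] [Algebra K L] (S : Set (HeightOneSpectrum (𝓞 L))),
    S.Finite → ∀ N : ℕ, ∃ C : ℝ, ∀ T : ℝ, 0 ≤ T → ∀ P : ℙ L (Fin (n + 1) → L),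
      IsSparsePoint G F H L S N T P → P.logHeight ≤ C * (1 + T)

/-- finiteness -/
def FiniteAll {K : Type} [Field K] {n w r : ℕ} (G : Set (MvPolynomial (Fin (n + 1)) K))
    (F : Fin w → MvPolynomial (Fin (n + 1)) K) (H : Fin r → MvPolynomial (Fin (n + 1)) K) : Prop :=
  ∀ (L : Type) [Field L] [NumberField L] [Algebra K L] (S : Set (HeightOneSpectrum (𝓞 L))),
    S.Finite → ∀ (N : ℕ) (T : ℝ), {P | IsSparsePoint G F H L S N T P}.Finite

/-- finiteness of the points whose coordinates are sums of few units -/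
def FiniteUnits {K : Type} [Field K] {n w r : ℕ} (G : Set (MvPolynomial (Fin (n + 1)) K))
    (F : Fin w → MvPolynomial (Fin (n + 1)) K) (H : Fin r → MvPolynomial (Fin (n + 1)) K) : Prop :=
  ∀ (L : Type) [Field L] [NumberField L] [Algebra K L] (S : Set (HeightOneSpectrum (𝓞 L))),
    S.Finite → ∀ N : ℕ, {P | IsSparsePoint G F H L S N 0 P}.Finite

section northcott

variable {L : Type} [Field L] [NumberField L]

theorem finite_proj (n : ℕ) (B : ℝ) : {P : ℙ L (Fin (n + 1) → L) | P.logHeight ≤ B}.Finite := by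
  classical
  let A : Set L := {y | logHeight₁ y ≤ B}
  have hA : A.Finite := NumberField.finite_setOfPred_logHeight₁_le L B
  have hpi : (Set.pi Set.univ fun _ : Fin (n + 1) => A).Finite := Set.Finite.pi' (fun _ => hA) |>.subset
    fun x hx i => hx i (Set.mem_univ i)
  let f : (Fin (n + 1) → L) → ℙ L (Fin (n + 1) → L) := fun x =>
    if h : x ≠ 0 then Projectivization.mk L x h else Projectivization.mk L (fun _ => 1)
      (fun h0 => one_ne_zero (congrFun h0 0))
  refine (hpi.image f).subset fun P hP => ?_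
  have hr := P.rep_nonzero
  obtain ⟨i, hi⟩ := Function.ne_iff.1 hr
  have hi' : P.rep i ≠ 0 := hi
  let x : Fin (n + 1) → L := (P.rep i)⁻¹ • P.rep
  have hx : x ≠ 0 := smul_ne_zero (inv_ne_zero hi') hr
  refine ⟨x, ?_, ?_⟩
  · intro j _
    show logHeight₁ (x j) ≤ B
    have h1 : x j = P.rep j / P.rep i := by
      show (P.rep i)⁻¹ * P.rep j = _
      rw [div_eq_inv_mul]
    rw [h1]
    refine (logHeight₁_div_le P.rep j i).trans ?_
    have h2 : P.logHeight = logHeight P.rep := by
      conv_lhs => rw [← P.mk_rep]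
      rw [Projectivization.logHeight_mk]
    rw [← h2]
    exact hP
  · show f x = P
    have h3 : f x = Projectivization.mk L x hx := dif_pos hx
    rw [h3]
    conv_rhs => rw [← P.mk_rep]
    rw [Projectivization.mk_eq_mk_iff']
    exact ⟨(P.rep i)⁻¹, rfl⟩

end northcott

section places

variable {L : Type} [Field L] [NumberField L]

open Classical in
/-- the places of `S` and the archimedean ones -/
noncomputable def plS (S : Set (HeightOneSpectrum (𝓞 L))) (hS : S.Finite) : Finset (Pl L) :=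
  (Finset.univ.map ⟨Sum.inl, Sum.inl_injective⟩) ∪ (hS.toFinset.map ⟨Sum.inr, Sum.inr_injective⟩)

theorem inl_mem (S : Set (HeightOneSpectrum (𝓞 L))) (hS : S.Finite) (w : InfinitePlace L) :
    (Sum.inl w : Pl L) ∈ plS S hS := by
  classical
  unfold plS
  rw [Finset.mem_union]
  exact Or.inl (Finset.mem_map_of_mem _ (Finset.mem_univ w))

theorem inr_mem (S : Set (HeightOneSpectrum (𝓞 L))) (hS : S.Finite) (v : HeightOneSpectrum (𝓞 L)) :
    (Sum.inr v : Pl L) ∈ plS S hS ↔ v ∈ S := by
  classical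
  unfold plS
  rw [Finset.mem_union, Finset.mem_map, Finset.mem_map]
  constructor
  · rintro (⟨w, _, hw⟩ | ⟨v', hv', hw⟩)
    · exact absurd hw (by simp)
    · have h1 : v' = v := Sum.inr_injective hw
      rw [← h1]
      exact (Set.Finite.mem_toFinset _).1 hv'
  · intro h
    exact Or.inr ⟨v, (Set.Finite.mem_toFinset _).2 h, rfl⟩

theorem fv_one_iff (v : HeightOneSpectrum (𝓞 L)) (x : L) : fv v x = 1 ↔ v.valuation L x = 1 := by
  have h1 : fv v x ≤ 1 ↔ v.valuation L x ≤ 1 := Pool.Agent.Y742.SF.fv_le_one_iff v x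
  have h2 : fv v x < 1 ↔ v.valuation L x < 1 := Pool.Agent.R405.fv_lt_one_iff v x
  constructor
  · intro h
    refine le_antisymm (h1.1 h.le) (not_lt.1 fun h3 => ?_)
    have h4 := h2.2 h3
    rw [h] at h4
    exact lt_irrefl _ h4
  · intro h
    refine le_antisymm (h1.2 h.le) (not_lt.1 fun h3 => ?_)
    have h4 := h2.1 h3
    rw [h] at h4
    exact lt_irrefl _ h4

theorem isSU_of_unit (S : Set (HeightOneSpectrum (𝓞 L))) (hS : S.Finite) (u : Lˣ)
    (hu : u ∈ S.unit L) : IsSU (plS S hS) (u : L) := by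
  refine ⟨u.ne_zero, fun v hv => ?_⟩
  rw [inr_mem] at hv
  rw [fv_one_iff]
  exact hu v hv

theorem ho_eq (S : Set (HeightOneSpectrum (𝓞 L))) (hS : S.Finite) {w : ℕ} (y : Fin w → L) :
    gcdHeight S y = -ho (plS S hS) y := by
  classical
  unfold gcdHeight ho
  rw [← finsum_neg_distrib]
  refine finsum_congr fun v => ?_
  unfold lo
  by_cases hv : v ∈ S
  · rw [if_pos ((inr_mem S hS v).2 hv), neg_zero]
    rw [finsum_eq_if, if_neg (not_not.2 hv)]
  · rw [if_neg (fun h => hv ((inr_mem S hS v).1 h))]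
    rw [finsum_eq_if, if_pos hv]
    rfl

end places

section bound

variable {K : Type} [Field K] {n w r : ℕ} (G : Set (MvPolynomial (Fin (n + 1)) K))
  (F : Fin w → MvPolynomial (Fin (n + 1)) K) (H : Fin r → MvPolynomial (Fin (n + 1)) K)

theorem height_bound (hG : ∀ g ∈ G, ∃ d, g.IsHomogeneous d) (hF : ∀ j, ∃ d, (F j).IsHomogeneous d)
    (hH : ∀ l, ∃ d, (H l).IsHomogeneous d) (hc : CurvesIn G F H) : HeightBound G F H := by
  classical
  intro L _ _ _ S hS N
  by_contra hcon
  push Not at hcon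
  choose T hT P hP hlt using fun t : ℕ => hcon (t : ℝ)
  choose x hx0 hPx hGx hFx hHx hsp hgcd using hP
  choose a u ha hu hxs using hsp
  set S' := plS S hS with hS'
  have hht : ∀ t, (P t).logHeight = logHeight (x t) := by
    intro t
    rw [hPx t, Projectivization.logHeight_mk]
  have hLt : ∀ t : ℕ, (t : ℝ) * (1 + T t) < logHeight (x t) := by
    intro t
    rw [← hht]
    exact hlt t
  have hLlim : Tendsto (fun t => logHeight (x t)) (hyperfilter ℕ : Filter ℕ) atTop := by
    refine Tendsto.mono_left ?_ Nat.hyperfilter_le_atTop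
    refine tendsto_atTop_mono (fun t => ?_) tendsto_natCast_atTop_atTop
    have h1 := hLt t
    have h2 : 0 ≤ (t : ℝ) * T t := mul_nonneg (Nat.cast_nonneg t) (hT t)
    rw [mul_add, mul_one] at h1
    linarith
  let σ : Sc := ⟨hyperfilter ℕ, fun t => logHeight (x t), hLlim⟩
  have hTs : Sm σ T := by
    intro ε hε
    have h1 : ∀ᶠ t : ℕ in (hyperfilter ℕ : Filter ℕ), 1 / ε ≤ (t : ℝ) :=
      Nat.hyperfilter_le_atTop (tendsto_natCast_atTop_atTop.eventually_ge_atTop _)
    have h2 : ∀ᶠ t : ℕ in (hyperfilter ℕ : Filter ℕ), T t ≤ ε * logHeight (x t) := by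
      filter_upwards [h1] with t ht
      have h3 := hLt t
      have h4 : 1 / ε * T t ≤ (t : ℝ) * (1 + T t) := by
        have := hT t
        have h5 : 1 / ε * T t ≤ (t : ℝ) * T t := mul_le_mul_of_nonneg_right ht this
        have h6 : (0 : ℝ) ≤ t := Nat.cast_nonneg t
        nlinarith
      have h5 : 1 / ε * T t ≤ logHeight (x t) := h4.trans h3.le
      rw [one_div, inv_mul_le_iff₀ hε] at h5
      exact h5
    exact h2
  have hmap : ∀ (g : MvPolynomial (Fin (n + 1)) K) (y : Fin (n + 1) → L),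
      MvPolynomial.eval y (MvPolynomial.map (algebraMap K L) g) = MvPolynomial.aeval y g := by
    intro g y
    rw [MvPolynomial.eval_map, MvPolynomial.aeval_def]
  have key := core (k := L) (σ := σ) (S := S') (fun w => inl_mem S hS w) (n := n) (N := N) (w := w)
    (r := r)
    ((MvPolynomial.map (algebraMap K L)) '' G) (by
      rintro _ ⟨g, hg, rfl⟩
      obtain ⟨d, hd⟩ := hG g hg
      exact ⟨d, hd.map _⟩)
    (fun j => MvPolynomial.map (algebraMap K L) (F j)) (fun j => by
      obtain ⟨d, hd⟩ := hF j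
      exact ⟨d, hd.map _⟩)
    (fun l => MvPolynomial.map (algebraMap K L) (H l)) (fun l => by
      obtain ⟨d, hd⟩ := hH l
      exact ⟨d, hd.map _⟩)
    (fun i t => x t i) (fun i j t => a t i j) (fun i j t => (u t i j : L))
    (fun i t => hxs t i) (fun i j t => isSU_of_unit S hS _ (hu t i j))
    (fun i j => hTs.mono (Eventually.of_forall fun t => ha t i j)) (fun t => rfl)
    (by
      rintro _ ⟨g, hg, rfl⟩ t
      rw [hmap]
      exact hGx t g hg)
    (by
      intro t
      obtain ⟨j, hj⟩ := hFx t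
      refine ⟨j, ?_⟩
      rw [hmap]
      exact hj)
    (by
      refine hTs.mono (Eventually.of_forall fun t => ?_)
      have h1 := hgcd t
      rw [ho_eq S hS] at h1
      simp only [hmap]
      exact h1)
    (by
      intro t
      obtain ⟨l, hl⟩ := hHx t
      refine ⟨l, ?_⟩
      rw [hmap]
      exact hl)
  obtain ⟨Ω, _, _, ψ, Q, h1, h2, t, ht, l, hl⟩ := key
  have he : ∀ (g : MvPolynomial (Fin (n + 1)) K) (y : Fin (n + 1) → Ω),
      (MvPolynomial.map (algebraMap K L) g).eval₂ ψ y = g.eval₂ (ψ.comp (algebraMap K L)) y := by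
    intro g y
    rw [MvPolynomial.eval₂_map]
  have h3 := hc Ω (ψ.comp (algebraMap K L)) Q (by
    intro s hs
    obtain ⟨h4, j, hj⟩ := h1 s hs
    refine ⟨fun g hg => ?_, j, ?_⟩
    · rw [← he]
      exact h4 _ ⟨g, hg, rfl⟩
    · rw [← he]
      exact hj) h2 t ht l
  rw [he] at hl
  exact hl h3

theorem finite_of_height (h : HeightBound G F H) : FiniteAll G F H := by
  intro L _ _ _ S hS N T
  obtain ⟨C, hC⟩ := h L S hS N
  refine (finite_proj n (C * (1 + max T 0))).subset fun P hP => ?_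
  refine hC (max T 0) (le_max_right _ _) P ?_
  obtain ⟨x, hx, h1, h2, h3, h4, h5, h6⟩ := hP
  refine ⟨x, hx, h1, h2, h3, h4, fun i => ?_, h6.trans (le_max_left _ _)⟩
  obtain ⟨a, u, ha, hu, hs⟩ := h5 i
  exact ⟨a, u, fun j => (ha j).trans (le_max_left _ _), hu, hs⟩

theorem units_of_finite (h : FiniteAll G F H) : FiniteUnits G F H :=
  fun L _ _ _ S hS N => h L S hS N 0

end bound

end Pool.Agent.D0H85.SP
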