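import Mathlib

/-!
One-parameter substitutions and common factors of polynomials.
-/

set_option autoImplicit false
set_option linter.unusedSectionVars false

namespace Pool.Agent.D0H85.SP

open scoped LaurentPolynomial

variable {F : Type} [Field F] {s : ℕ}

/-- the one-parameter substitution `y_i ↦ y_i T ^ (l i)` -/
noncomputable def Th (l : Fin s → ℕ) :
    MvPolynomial (Fin s) F →+* Polynomial (MvPolynomial (Fin s) F) :=
  MvPolynomial.eval₂Hom (Polynomial.C.comp MvPolynomial.C)
    (fun i => Polynomial.C (MvPolynomial.X i) * Polynomial.X ^ l i)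

theorem Th_C (l : Fin s → ℕ) (c : F) :
    Th l (MvPolynomial.C c) = Polynomial.C (MvPolynomial.C c) := by
  unfold Th
  rw [MvPolynomial.coe_eval₂Hom, MvPolynomial.eval₂_C]
  rfl

theorem Th_X (l : Fin s → ℕ) (i : Fin s) :
    Th (F := F) l (MvPolynomial.X i) = Polynomial.C (MvPolynomial.X i) * Polynomial.X ^ l i := by
  unfold Th
  rw [MvPolynomial.coe_eval₂Hom, MvPolynomial.eval₂_X]

/-- the Laurent version -/
noncomputable def ThL (l : Fin s → ℤ) :
    MvPolynomial (Fin s) F →+* LaurentPolynomial (MvPolynomial (Fin s) F) :=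
  MvPolynomial.eval₂Hom (LaurentPolynomial.C.comp MvPolynomial.C)
    (fun i => LaurentPolynomial.C (MvPolynomial.X i) * LaurentPolynomial.T (l i))

theorem ThL_C (l : Fin s → ℤ) (c : F) :
    ThL l (MvPolynomial.C c) = LaurentPolynomial.C (MvPolynomial.C c) := by
  unfold ThL
  rw [MvPolynomial.coe_eval₂Hom, MvPolynomial.eval₂_C]
  rfl

theorem ThL_X (l : Fin s → ℤ) (i : Fin s) : ThL (F := F) l (MvPolynomial.X i) =
    LaurentPolynomial.C (MvPolynomial.X i) * LaurentPolynomial.T (l i) := by
  unfold ThL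
  rw [MvPolynomial.coe_eval₂Hom, MvPolynomial.eval₂_X]

/-- the unit `T` -/
noncomputable def uT (R : Type) [CommRing R] : (LaurentPolynomial R)ˣ where
  val := LaurentPolynomial.T 1
  inv := LaurentPolynomial.T (-1)
  val_inv := by rw [← LaurentPolynomial.T_add]; simp
  inv_val := by rw [← LaurentPolynomial.T_add]; simp

theorem uT_zpow (R : Type) [CommRing R] (n : ℤ) :
    ((uT R ^ n : (LaurentPolynomial R)ˣ) : LaurentPolynomial R) = LaurentPolynomial.T n := by
  have hn : ∀ n : ℕ, ((uT R ^ n : (LaurentPolynomial R)ˣ) : LaurentPolynomial R) =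
      LaurentPolynomial.T (n : ℤ) := by
    intro n
    rw [Units.val_pow_eq_pow_val]
    show LaurentPolynomial.T 1 ^ n = _
    rw [LaurentPolynomial.T_pow, mul_one]
  have hn' : ∀ n : ℕ, (((uT R)⁻¹ ^ n : (LaurentPolynomial R)ˣ) : LaurentPolynomial R) =
      LaurentPolynomial.T (-(n : ℤ)) := by
    intro n
    rw [Units.val_pow_eq_pow_val]
    show LaurentPolynomial.T (-1) ^ n = _
    rw [LaurentPolynomial.T_pow]
    congr 1
    ring
  obtain ⟨m, rfl | rfl⟩ := Int.eq_nat_or_neg n
  · rw [zpow_natCast, hn]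
  · rw [zpow_neg, zpow_natCast, ← inv_pow, hn']

/-- the substitution as an endomorphism of the Laurent polynomials -/
noncomputable def al (l : Fin s → ℤ) :
    LaurentPolynomial (MvPolynomial (Fin s) F) →+* LaurentPolynomial (MvPolynomial (Fin s) F) :=
  LaurentPolynomial.eval₂ (ThL l) (uT _)

theorem al_C (l : Fin s → ℤ) (a : MvPolynomial (Fin s) F) :
    al l (LaurentPolynomial.C a) = ThL l a := by
  unfold al
  rw [LaurentPolynomial.eval₂_C]

theorem al_T (l : Fin s → ℤ) (n : ℤ) :
    al (F := F) l (LaurentPolynomial.T n) = LaurentPolynomial.T n := by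
  unfold al
  rw [LaurentPolynomial.eval₂_T, uT_zpow]

theorem al_ThL (l l' : Fin s → ℤ) (h : ∀ i, l i + l' i = 0) (a : MvPolynomial (Fin s) F) :
    al l (ThL l' a) = LaurentPolynomial.C a := by
  have h1 : (al l).comp (ThL l') = (LaurentPolynomial.C : MvPolynomial (Fin s) F →+* _) := by
    apply MvPolynomial.ringHom_ext
    · intro r
      rw [RingHom.comp_apply, ThL_C, al_C, ThL_C]
    · intro i
      rw [RingHom.comp_apply, ThL_X, map_mul, al_C, al_T, ThL_X, LaurentPolynomial.mul_T_assoc,
        h i, LaurentPolynomial.T_zero, mul_one]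
  exact RingHom.congr_fun h1 a

theorem al_al (l l' : Fin s → ℤ) (h : ∀ i, l i + l' i = 0)
    (z : LaurentPolynomial (MvPolynomial (Fin s) F)) : al l (al l' z) = z := by
  induction z using LaurentPolynomial.induction_on' with
  | add p q hp hq => rw [map_add, map_add, hp, hq]
  | C_mul_T n a => rw [map_mul, al_C, al_T, map_mul, al_T, al_ThL l l' h]

/-- the two versions -/
theorem toLaurent_Th (l : Fin s → ℕ) (a : MvPolynomial (Fin s) F) :
    Polynomial.toLaurent (Th l a) = ThL (fun i => (l i : ℤ)) a := by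
  have h1 : (Polynomial.toLaurent).comp (Th l) = ThL (F := F) (fun i => (l i : ℤ)) := by
    apply MvPolynomial.ringHom_ext
    · intro r
      rw [RingHom.comp_apply, Th_C, ThL_C, Polynomial.toLaurent_C]
    · intro i
      rw [RingHom.comp_apply, Th_X, ThL_X, map_mul, Polynomial.toLaurent_C,
        Polynomial.toLaurent_X_pow]
  exact RingHom.congr_fun h1 a

section div

variable {R : Type} [CommRing R] [IsDomain R]

/-- divisors of monomials are monomials -/
theorem mono_of_mul {p p' : Polynomial R} {f : R} (hf : f ≠ 0) {N : ℕ}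
    (h : p * p' = Polynomial.C f * Polynomial.X ^ N) :
    ∃ (r : R) (c : ℕ), p = Polynomial.C r * Polynomial.X ^ c := by
  have h0 : p * p' ≠ 0 := by
    rw [h]
    exact mul_ne_zero (Polynomial.C_ne_zero.2 hf) (pow_ne_zero _ Polynomial.X_ne_zero)
  have hp : p ≠ 0 := left_ne_zero_of_mul h0
  have hp' : p' ≠ 0 := right_ne_zero_of_mul h0
  have h1 : p.natDegree + p'.natDegree = N := by
    rw [← Polynomial.natDegree_mul hp hp', h, Polynomial.natDegree_C_mul_X_pow N f hf]
  have h2 : p.natTrailingDegree + p'.natTrailingDegree = N := by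
    rw [← Polynomial.natTrailingDegree_mul hp hp', h]
    rw [Polynomial.C_mul_X_pow_eq_monomial, Polynomial.natTrailingDegree_monomial hf]
  have h3 := Polynomial.natTrailingDegree_le_natDegree p
  have h4 := Polynomial.natTrailingDegree_le_natDegree p'
  refine ⟨p.coeff p.natDegree, p.natDegree, ?_⟩
  ext k
  rw [Polynomial.coeff_C_mul_X_pow]
  split_ifs with hk
  · rw [hk]
  · rcases Nat.lt_or_gt_of_ne hk with h5 | h5
    · exact Polynomial.coeff_eq_zero_of_lt_natTrailingDegree (by omega)
    · exact Polynomial.coeff_eq_zero_of_natDegree_lt h5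

/-- divisors of constants in the ring of Laurent polynomials -/
theorem laurent_dvd {z : LaurentPolynomial R} {f : R} (hf : f ≠ 0)
    (h : z ∣ LaurentPolynomial.C f) :
    ∃ (r : R) (n : ℤ), z = LaurentPolynomial.C r * LaurentPolynomial.T n := by
  obtain ⟨z', hz⟩ := h
  obtain ⟨a, p, hp⟩ := LaurentPolynomial.exists_T_pow z
  obtain ⟨b, p', hp'⟩ := LaurentPolynomial.exists_T_pow z'
  have h1 : p * p' = Polynomial.C f * Polynomial.X ^ (a + b) := by
    apply Polynomial.toLaurent_injective
    rw [map_mul, hp, hp', map_mul, Polynomial.toLaurent_C, Polynomial.toLaurent_X_pow, hz]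
    push_cast
    rw [LaurentPolynomial.T_add]
    ring
  obtain ⟨r, c, hr⟩ := mono_of_mul hf h1
  refine ⟨r, (c : ℤ) - a, ?_⟩
  have h2 : z = Polynomial.toLaurent p * LaurentPolynomial.T (-(a : ℤ)) := by
    rw [hp, LaurentPolynomial.mul_T_assoc]
    simp
  rw [h2, hr, map_mul, Polynomial.toLaurent_C, Polynomial.toLaurent_X_pow,
    LaurentPolynomial.mul_T_assoc]
  congr 2

/-- divisibility can be tested at `T = 1` -/
theorem dvd_of_laurent {r f : R} {n : ℤ}
    (h : LaurentPolynomial.C r * LaurentPolynomial.T n ∣ LaurentPolynomial.C f) : r ∣ f := by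
  obtain ⟨z, hz⟩ := h
  have h1 := congrArg (LaurentPolynomial.eval₂ (RingHom.id R) 1) hz
  rw [map_mul, LaurentPolynomial.eval₂_C, LaurentPolynomial.eval₂_C_mul_T] at h1
  simp only [RingHom.id_apply, one_zpow, Units.val_one, mul_one] at h1
  exact ⟨_, h1⟩

end div

/-- **Common zeros on a one-parameter curve come from common factors.** -/
theorem exists_factor (l : Fin s → ℕ) {L : Type} [Field L] (ρ : MvPolynomial (Fin s) F →+* L)
    (hρ : Function.Injective ρ) (t : L) (ht : t ≠ 0) {w : ℕ} (f : Fin w → MvPolynomial (Fin s) F)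
    (j1 : Fin w) (hf : f j1 ≠ 0) (hroot : ∀ j, (Th l (f j)).eval₂ ρ t = 0) :
    ∃ r : MvPolynomial (Fin s) F, (∀ j, r ∣ f j) ∧ ∀ m c, r ≠ MvPolynomial.monomial m c := by
  classical
  let ev : Polynomial (MvPolynomial (Fin s) F) →+* L := Polynomial.eval₂RingHom ρ t
  have hTh0 : ∀ a : MvPolynomial (Fin s) F, Th l a = 0 → a = 0 := by
    intro a ha
    have h1 : (Polynomial.evalRingHom (1 : MvPolynomial (Fin s) F)).comp (Th l) =
        RingHom.id _ := by
      apply MvPolynomial.ringHom_ext
      · intro r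
        rw [RingHom.comp_apply, Th_C]
        simp
      · intro i
        rw [RingHom.comp_apply, Th_X]
        simp
    have h2 := RingHom.congr_fun h1 a
    rw [RingHom.comp_apply, ha, map_zero] at h2
    exact h2.symm
  have hI : (RingHom.ker ev).IsPrime := RingHom.ker_isPrime ev
  have hIb : RingHom.ker ev ≠ ⊥ := by
    intro h
    have h1 : Th l (f j1) ∈ RingHom.ker ev := hroot j1
    rw [h, Ideal.mem_bot] at h1
    exact hf (hTh0 _ h1)
  obtain ⟨q, hq1, hq⟩ := Ideal.IsPrime.exists_mem_prime_of_ne_bot hI hIb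
  have hqev : q.eval₂ ρ t = 0 := hq1
  have hqd : q.natDegree ≠ 0 := by
    intro h
    obtain ⟨c, hc⟩ := Polynomial.natDegree_eq_zero.1 h
    rw [← hc, Polynomial.eval₂_C, map_eq_zero_iff ρ hρ] at hqev
    rw [hqev, map_zero] at hc
    exact hq.ne_zero hc.symm
  -- `q` generates the kernel
  have hdvd : ∀ z : Polynomial (MvPolynomial (Fin s) F), z.eval₂ ρ t = 0 → q ∣ z := by
    intro z hz
    have hprim : q.IsPrimitive := hq.irreducible.isPrimitive hqd
    let K := FractionRing (MvPolynomial (Fin s) F)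
    have hirr : Irreducible (q.map (algebraMap (MvPolynomial (Fin s) F) K)) :=
      (hprim.irreducible_iff_irreducible_map_fraction_map).1 hq.irreducible
    let ρ' : K →+* L := IsFractionRing.lift hρ
    have hρ' : ρ'.comp (algebraMap (MvPolynomial (Fin s) F) K) = ρ := by
      refine RingHom.ext fun a => ?_
      rw [RingHom.comp_apply]
      exact IsFractionRing.lift_algebraMap hρ _
    have hmap : ∀ y : Polynomial (MvPolynomial (Fin s) F),
        (y.map (algebraMap (MvPolynomial (Fin s) F) K)).eval₂ ρ' t = y.eval₂ ρ t := by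
      intro y
      rw [Polynomial.eval₂_map, hρ']
    apply hprim.dvd_of_fraction_map_dvd_fraction_map (K := K)
    by_contra hno
    have hcop : IsCoprime (q.map (algebraMap (MvPolynomial (Fin s) F) K))
        (z.map (algebraMap (MvPolynomial (Fin s) F) K)) :=
      (Irreducible.coprime_iff_not_dvd hirr).2 hno
    obtain ⟨a, b, hab⟩ := hcop
    have h1 := congrArg (Polynomial.eval₂ ρ' t) hab
    rw [Polynomial.eval₂_add, Polynomial.eval₂_mul, Polynomial.eval₂_mul, hmap, hmap, hqev, hz,
      mul_zero, mul_zero, add_zero, Polynomial.eval₂_one] at h1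
    exact zero_ne_one h1
  have hqX : ¬ q ∣ Polynomial.X := by
    rintro ⟨y, hy⟩
    have h1 := congrArg (Polynomial.eval₂ ρ t) hy
    rw [Polynomial.eval₂_mul, hqev, zero_mul, Polynomial.eval₂_X] at h1
    exact ht h1
  -- pull back
  let lz : Fin s → ℤ := fun i => (l i : ℤ)
  let z : LaurentPolynomial (MvPolynomial (Fin s) F) := al (fun i => -lz i) (Polynomial.toLaurent q)
  have hz : ∀ j, z ∣ LaurentPolynomial.C (f j) := by
    intro j
    obtain ⟨y, hy⟩ := hdvd _ (hroot j)
    have h1 : Polynomial.toLaurent (Th l (f j)) = Polynomial.toLaurent q *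
        Polynomial.toLaurent y := by rw [hy, map_mul]
    rw [toLaurent_Th] at h1
    refine ⟨al (fun i => -lz i) (Polynomial.toLaurent y), ?_⟩
    rw [← map_mul, ← h1]
    exact (al_ThL (fun i => -lz i) lz (fun i => by ring) (f j)).symm
  obtain ⟨r, n, hr⟩ := laurent_dvd hf (hz j1)
  refine ⟨r, fun j => dvd_of_laurent (by rw [← hr]; exact hz j), ?_⟩
  rintro m c rfl
  -- the element `q` is a monomial
  have hq2 : Polynomial.toLaurent q = al lz z := by
    rw [al_al lz (fun i => -lz i) (fun i => by ring)]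
  rw [hr, map_mul, al_C, al_T] at hq2
  have hmon : ∃ e : ℤ, ThL lz (MvPolynomial.monomial m c) =
      LaurentPolynomial.C (MvPolynomial.monomial m c) * LaurentPolynomial.T e := by
    refine ⟨∑ i, (m i : ℤ) * lz i, ?_⟩
    rw [MvPolynomial.monomial_eq, Finsupp.prod_fintype _ _ (by simp), map_mul, ThL_C, map_prod,
      map_mul, map_prod, mul_assoc]
    congr 1
    have h1 : ∀ i, ThL (F := F) lz (MvPolynomial.X i ^ m i) =
        LaurentPolynomial.C (MvPolynomial.X i ^ m i) * LaurentPolynomial.T ((m i : ℤ) * lz i) := by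
      intro i
      rw [map_pow, ThL_X, mul_pow, LaurentPolynomial.T_pow, map_pow]
    rw [Finset.prod_congr rfl fun i _ => h1 i, Finset.prod_mul_distrib]
    congr 1
    have h2 : ∀ A : Finset (Fin s), ∏ i ∈ A, (LaurentPolynomial.T ((m i : ℤ) * lz i) :
        LaurentPolynomial (MvPolynomial (Fin s) F)) =
          LaurentPolynomial.T (∑ i ∈ A, (m i : ℤ) * lz i) := by
      intro A
      induction A using Finset.induction_on with
      | empty => simp
      | insert a A ha ih => rw [Finset.prod_insert ha, Finset.sum_insert ha, ih,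
          LaurentPolynomial.T_add]
    exact h2 _
  obtain ⟨e, he⟩ := hmon
  rw [he, LaurentPolynomial.mul_T_assoc] at hq2
  -- hence `q` divides a monomial
  have hq0 : q ≠ 0 := hq.ne_zero
  have hc0 : MvPolynomial.monomial m c ≠ 0 := by
    intro h0
    rw [h0, map_zero, zero_mul] at hq2
    exact hq0 (Polynomial.toLaurent_eq_zero.1 hq2)
  obtain ⟨N, M, hNM⟩ : ∃ N M : ℕ, q * Polynomial.X ^ N =
      Polynomial.C (MvPolynomial.monomial m c) * Polynomial.X ^ M := by
    obtain ⟨a, ha | ha⟩ := Int.eq_nat_or_neg (e + n)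
    · refine ⟨0, a, ?_⟩
      apply Polynomial.toLaurent_injective
      rw [pow_zero, mul_one, map_mul, Polynomial.toLaurent_C, Polynomial.toLaurent_X_pow, hq2, ha]
    · refine ⟨a, 0, ?_⟩
      apply Polynomial.toLaurent_injective
      rw [pow_zero, mul_one, map_mul, Polynomial.toLaurent_C, Polynomial.toLaurent_X_pow, hq2, ha,
        LaurentPolynomial.mul_T_assoc]
      simp
  have hd1 : q ∣ Polynomial.C (MvPolynomial.monomial m c) * Polynomial.X ^ M := ⟨_, hNM.symm⟩
  rcases hq.dvd_or_dvd hd1 with h1 | h1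
  · have h2 := Polynomial.natDegree_le_of_dvd h1 (Polynomial.C_ne_zero.2 hc0)
    rw [Polynomial.natDegree_C] at h2
    omega
  · exact hqX (hq.dvd_of_dvd_pow h1)

end Pool.Agent.D0H85.SP
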