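import Pool.Agent.K1H83.VN.Unit

/-!
Sums of unit germs with small coefficients, without a bound for the units in terms of the scale.
-/

set_option autoImplicit false
set_option linter.unusedSectionVars false

namespace Pool.Agent.D0H85.SP

open NumberField IsDedekindDomain Height Filter Topology
open Pool.Agent.W180.OP (Pl av wt fv fv_support_finite wt_nonneg)
open Pool.Agent.K1H83.VN

variable {k : Type} [Field k] [NumberField k] {σ : Sc}

theorem sum_fiber {ι Q M : Type} [Fintype ι] [Fintype Q] [DecidableEq Q] [AddCommMonoid M]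
    (g : ι → Q) (f : ι → M) : ∑ q, ∑ i : {i // g i = q}, f i.1 = ∑ i, f i := by
  classical
  rw [← Finset.sum_fiberwise Finset.univ g f]
  refine Finset.sum_congr rfl fun q _ => ?_
  rw [Finset.sum_subtype (Finset.univ.filter fun i => g i = q) (p := fun i => g i = q)
    (by simp)]

/-- a larger scale along the same ultrafilter -/
def Sc.big (σ : Sc) (f : ℕ → ℝ) (hf : ∀ t, 0 ≤ f t) : Sc where
  𝒰 := σ.𝒰
  L := fun t => σ.L t + f t
  lim := tendsto_atTop_mono (fun t => by linarith [hf t]) σ.lim

theorem sm_big {f : ℕ → ℝ} (hf : ∀ t, 0 ≤ f t) {g : ℕ → ℝ} (h : Sm σ g) : Sm (Sc.big σ f hf) g := by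
  intro ε hε
  have h1 : ∀ᶠ t in (σ.𝒰 : Filter ℕ), g t ≤ ε * (σ.L t + f t) := by
    filter_upwards [h ε hε] with t ht
    have := mul_nonneg hε.le (hf t)
    nlinarith
  exact h1

theorem ff_big {f : ℕ → ℝ} (hf : ∀ t, 0 ≤ f t) {x : G k σ} (h : x ∈ FF k σ) :
    (show G k (Sc.big σ f hf) from x) ∈ FF k (Sc.big σ f hf) :=
  sm_big hf h

theorem bb_big {f : ℕ → ℝ} (hf : ∀ t, 0 ≤ f t) {x : G k σ}
    (h : ∀ᶠ t in (σ.𝒰 : Filter ℕ), logHeight₁ (rep x t) ≤ f t) :
    (show G k (Sc.big σ f hf) from x) ∈ BB k (Sc.big σ f hf) := by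
  refine ⟨1, ?_⟩
  have h1 : ∀ᶠ t in (σ.𝒰 : Filter ℕ), logHeight₁ (rep x t) ≤ 1 * (σ.L t + f t) := by
    filter_upwards [h, L_pos (σ := σ)] with t ht h2
    linarith
  exact h1

section fam

variable {ι : Type} [Fintype ι]

/-- the sum of the heights of the quotients -/
noncomputable def hq (u : ι → G k σ) (t : ℕ) : ℝ := ∑ i, ∑ j, logHeight₁ (rep (u i / u j) t)

theorem hq_nonneg (u : ι → G k σ) (t : ℕ) : 0 ≤ hq u t :=
  Finset.sum_nonneg fun _ _ => Finset.sum_nonneg fun _ _ => zero_le_logHeight₁ _

theorem le_hq (u : ι → G k σ) (i j : ι) (t : ℕ) : logHeight₁ (rep (u i / u j) t) ≤ hq u t := by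
  unfold hq
  have h1 : logHeight₁ (rep (u i / u j) t) ≤ ∑ j, logHeight₁ (rep (u i / u j) t) :=
    Finset.single_le_sum (f := fun j => logHeight₁ (rep (u i / u j) t))
      (fun _ _ => zero_le_logHeight₁ _) (Finset.mem_univ j)
  have h2 : ∑ j, logHeight₁ (rep (u i / u j) t) ≤ ∑ i, ∑ j, logHeight₁ (rep (u i / u j) t) :=
    Finset.single_le_sum (f := fun i => ∑ j, logHeight₁ (rep (u i / u j) t))
      (fun _ _ => Finset.sum_nonneg fun _ _ => zero_le_logHeight₁ _) (Finset.mem_univ i)
  exact h1.trans h2

/-- the scale of a family of germs -/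
noncomputable def big (u : ι → G k σ) : Sc := Sc.big σ (hq u) (hq_nonneg u)

/-- the quotients of a family are small relative to the scale of the family only if they are small -/
theorem ff_of_big (u : ι → G k σ)
    (h : ∀ i j, (show G k (big u) from u i / u j) ∈ FF k (big u)) (i j : ι) :
    u i / u j ∈ FF k σ := by
  have hsum : Sm (big u) (hq u) := by
    have h1 : Sm (big u) fun t => ∑ i, ∑ j, logHeight₁ (rep (u i / u j) t) :=
      Sm.sum _ fun i _ => Sm.sum _ fun j _ => h i j
    exact h1
  have h2 : ∀ᶠ t in (σ.𝒰 : Filter ℕ), hq u t ≤ 1 / 2 * (σ.L t + hq u t) := hsum (1 / 2) (by norm_num)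
  rw [mem_FF]
  intro ε hε
  have h3 : ∀ᶠ t in (σ.𝒰 : Filter ℕ), logHeight₁ (rep (u i / u j) t) ≤
      ε / 2 * (σ.L t + hq u t) := h i j (ε / 2) (by positivity)
  filter_upwards [h2, h3] with t h4 h5
  have h6 : hq u t ≤ σ.L t := by linarith
  nlinarith

/-- the relation of being proportional relative to the scale of the family -/
noncomputable def rel (u : ι → G k σ) (hu : ∀ i, u i ≠ 0) : Setoid ι where
  r i j := (show G k (big u) from u i / u j) ∈ FF k (big u)
  iseqv := by
    constructor
    · intro i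
      have h1 : u i / u i = 1 := div_self (hu i)
      show (show G k (big u) from u i / u i) ∈ FF k (big u)
      rw [h1]
      exact (FF k (big u)).one_mem
    · intro i j h
      have h1 : u j / u i = (u i / u j)⁻¹ := by rw [inv_div]
      show (show G k (big u) from u j / u i) ∈ FF k (big u)
      rw [h1]
      exact (FF k (big u)).inv_mem h
    · intro i j l h1 h2
      have h3 : u i / u l = (u i / u j) * (u j / u l) := by
        rw [div_mul_div_cancel₀ (hu j)]
      show (show G k (big u) from u i / u l) ∈ FF k (big u)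
      rw [h3]
      exact (FF k (big u)).mul_mem h1 h2

end fam

variable {S : Finset (Pl k)}

theorem su_big {ι : Type} [Fintype ι] (u : ι → G k σ) {x : G k σ} (h : SU S x) :
    SU S (show G k (big u) from x) := h

/-- **sums of pairwise independent unit germs with small coefficients** -/
theorem sui' (hS : ∀ w : InfinitePlace k, Sum.inl w ∈ S) (n : ℕ) : ∀ {ι : Type} [Fintype ι],
    Fintype.card ι ≤ n → ∀ (u : ι → G k σ), (∀ i, SU S (u i)) →
    (∀ i j, i ≠ j → u i / u j ∉ FF k σ) → ∀ c : ι → G k σ, (∀ i, c i ∈ FF k σ) →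
    ∑ i, c i * u i = 0 → ∀ i, c i = 0 := by
  classical
  induction n with
  | zero =>
    intro ι _ hcard u _ _ c _ _ i
    have h1 : Fintype.card ι = 0 := by omega
    exact ((Fintype.card_eq_zero_iff.1 h1).false i).elim
  | succ n ih =>
    intro ι _ hcard u hu hne c hc hsum i0
    have hu0 : ∀ i, u i ≠ 0 := fun i => (hu i).ne_zero
    let R : Setoid ι := rel u hu0
    let Q := Quotient R
    let o : Q → ι := Quotient.out
    have ho : ∀ q : Q, (Quotient.mk R (o q)) = q := fun q => Quotient.out_eq q
    by_cases hall : ∀ i j : ι, (show G k (big u) from u i / u j) ∈ FF k (big u)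
    · have h1 : ∀ i j : ι, i = j := by
        intro i j
        by_contra h
        exact hne i j h (ff_of_big u hall i j)
      have h2 : ∑ i, c i * u i = c i0 * u i0 :=
        Fintype.sum_eq_single i0 fun j hj => absurd (h1 j i0) hj
      rw [h2] at hsum
      exact (mul_eq_zero.1 hsum).resolve_right (hu0 i0)
    · push Not at hall
      obtain ⟨a, b, hab⟩ := hall
      let q0 : Q := Quotient.mk R i0
      -- the coefficients of the classes
      let cc : Q → G k σ := fun q => ∑ i : {i // Quotient.mk R i = q}, c i.1 * (u i.1 / u (o q))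
      have hcc : ∀ q, (show G k (big u) from cc q) ∈ FF k (big u) := by
        intro q
        refine (FF k (big u)).sum_mem fun i _ => ?_
        refine (FF k (big u)).mul_mem (ff_big _ (hc i.1)) ?_
        have h1 : Quotient.mk R i.1 = Quotient.mk R (o q) := by rw [ho q]; exact i.2
        exact Quotient.exact h1
      have hccsum : ∀ q, cc q * u (o q) = ∑ i : {i // Quotient.mk R i = q}, c i.1 * u i.1 := by
        intro q
        rw [Finset.sum_mul]
        refine Finset.sum_congr rfl fun i _ => ?_
        rw [mul_assoc, div_mul_cancel₀ _ (hu0 _)]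
      have htot : ∑ q, cc q * (u (o q) / u (o q0)) = 0 := by
        have h1 : ∑ q, cc q * (u (o q) / u (o q0)) = (∑ q, cc q * u (o q)) / u (o q0) := by
          rw [Finset.sum_div]
          exact Finset.sum_congr rfl fun q _ => by rw [mul_div_assoc]
        rw [h1]
        have h2 : ∑ q, cc q * u (o q) = ∑ i, c i * u i := by
          rw [Finset.sum_congr rfl fun q _ => hccsum q]
          exact sum_fiber (fun i : ι => (Quotient.mk R i : Q)) (fun i => c i * u i)
        rw [h2, hsum, zero_div]
      have key := sui (σ := big u) hS (ι := Q) (fun q => (show G k (big u) from u (o q) / u (o q0)))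
        (fun q => (hu _).div (hu _)) (fun q => bb_big _ (Eventually.of_forall fun t => le_hq u _ _ t))
        (by
          intro q q' hqq' h
          apply hqq'
          rw [← ho q, ← ho q']
          apply Quotient.sound
          have h1 : (u (o q) / u (o q0)) / (u (o q') / u (o q0)) = u (o q) / u (o q') := by
            have := hu0 (o q0)
            have := hu0 (o q')
            field_simp
          have h2 : (show G k (big u) from (u (o q) / u (o q0)) / (u (o q') / u (o q0))) ∈
              FF k (big u) := h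
          rw [h1] at h2
          exact h2)
        (fun q => (show G k (big u) from cc q)) hcc htot
      -- the classes are smaller
      have hsub : Fintype.card {i // Quotient.mk R i = q0} < Fintype.card ι := by
        have h1 : ∃ x : ι, ¬ (Quotient.mk R x = q0) := by
          by_contra hno
          push Not at hno
          apply hab
          have h2 : Quotient.mk R a = Quotient.mk R b := by rw [hno a, hno b]
          exact Quotient.exact h2
        obtain ⟨x, hx⟩ := h1
        exact Fintype.card_subtype_lt hx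
      have h3 := hccsum q0
      have h4 : cc q0 = 0 := key q0
      rw [h4, zero_mul] at h3
      exact ih (ι := {i // Quotient.mk R i = q0}) (by omega) (fun i => u i.1) (fun i => hu _)
        (fun i j hij => hne _ _ fun h => hij (Subtype.ext h)) (fun i => c i.1) (fun i => hc _)
        h3.symm ⟨i0, rfl⟩

/-- the sum of the logarithms over the places of `S` -/
noncomputable def ns (S : Finset (Pl k)) (x : G k σ) (t : ℕ) : ℝ := ∑ v ∈ S, wt v * lv v x t

/-- a sum of at least two bounded units with small coefficients is not nearly a unit -/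
theorem nonunitB (hS : ∀ w : InfinitePlace k, Sum.inl w ∈ S) {ι : Type} [Fintype ι]
    (u : ι → G k σ) (hu : ∀ i, SU S (u i)) (hB : ∀ i, u i ∈ BB k σ)
    (hne : ∀ i j, i ≠ j → u i / u j ∉ FF k σ) (c : ι → G k σ) (hc : ∀ i, c i ∈ FF k σ)
    (hc0 : ∀ i, c i ≠ 0) (a b : ι) (hab : a ≠ b) : ¬ Sm σ (ns S (∑ i, c i * u i)) := by
  classical
  intro hsm
  apply hne a b hab
  set h : G k σ := ∑ i, c i * u i with hh
  have hh0 : h ≠ 0 := fun h0 => hc0 a (sui hS u hu hB hne c hc h0 a)
  have h1 : ∀ v ∈ S, ∀ i, Sm σ fun t => lv v (u i) t - lv v h t := by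
    intro v hv i
    exact (val_le_iff v (hu i).ne_zero hh0).1 (lb hS u hu hB hne c hc hc0 v hv i)
  have hW : 0 ≤ ∑ v ∈ S, wt v := Finset.sum_nonneg fun v _ => wt_nonneg v
  rw [mem_FF]
  intro ε hε
  have hε' : 0 < ε / (2 * (∑ v ∈ S, wt v + 1)) := by positivity
  set ε' := ε / (2 * (∑ v ∈ S, wt v + 1)) with hε'def
  have h2 : ∀ᶠ t in (σ.𝒰 : Filter ℕ), ∀ v ∈ S, ∀ i, lv v (u i) t - lv v h t ≤ ε' * σ.L t := by
    rw [Filter.eventually_all_finset]
    intro v hv
    rw [Filter.eventually_all]
    intro i
    exact h1 v hv i ε' hε'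
  filter_upwards [h2, hsm (ε / 2) (by positivity), hu a, hu b, rep_div (u a) (u b),
    L_pos (σ := σ)] with t e2 e3 e4 e5 e6 e7
  rw [e6]
  let x : Fin 2 → k := ![rep (u a) t, rep (u b) t]
  have hx : x ≠ 0 := ne_of_coord (i := 0) e4.1
  have e8 : logHeight₁ (rep (u a) t / rep (u b) t) ≤ logHeight x := logHeight₁_div_le x 0 1
  refine e8.trans ?_
  rw [logHeight_split S hS x hx]
  have e9 : ho S x ≤ 0 := by
    refine ho_nonpos S x hx fun v hv => ?_
    refine nm_le _ zero_le_one fun i => ?_
    fin_cases i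
    · exact (e4.2 v hv).le
    · exact (e5.2 v hv).le
  have e10 : ∀ v ∈ S, wt v * Real.log (nm (av v) x) ≤ wt v * lv v h t + wt v * (ε' * σ.L t) := by
    intro v hv
    rw [← mul_add]
    refine mul_le_mul_of_nonneg_left ?_ (wt_nonneg v)
    obtain ⟨i, hi⟩ := exists_nm (av v) x
    rw [← hi]
    fin_cases i
    · have := e2 v hv a
      show lv v (u a) t ≤ _
      linarith
    · have := e2 v hv b
      show lv v (u b) t ≤ _
      linarith
  have e11 := Finset.sum_le_sum e10
  rw [Finset.sum_add_distrib, ← Finset.sum_mul] at e11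
  have e12 : ∑ v ∈ S, wt v * lv v h t ≤ ε / 2 * σ.L t := e3
  have e13 : (∑ v ∈ S, wt v) * (ε' * σ.L t) ≤ ε / 2 * σ.L t := by
    have h3 : (∑ v ∈ S, wt v) * ε' ≤ ε / 2 := by
      rw [hε'def, mul_div_assoc', div_le_div_iff₀ (by positivity) (by norm_num)]
      nlinarith
    calc (∑ v ∈ S, wt v) * (ε' * σ.L t) = ((∑ v ∈ S, wt v) * ε') * σ.L t := by ring
      _ ≤ _ := mul_le_mul_of_nonneg_right h3 e7.le
  linarith

/-- **a sum of at least two units with small coefficients is not nearly a unit** -/
theorem nonunit (hS : ∀ w : InfinitePlace k, Sum.inl w ∈ S) {ι : Type} [Fintype ι]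
    (u : ι → G k σ) (hu : ∀ i, SU S (u i))
    (hne : ∀ i j, i ≠ j → u i / u j ∉ FF k σ) (c : ι → G k σ) (hc : ∀ i, c i ∈ FF k σ)
    (hc0 : ∀ i, c i ≠ 0) (a b : ι) (hab : a ≠ b) : ¬ Sm σ (ns S (∑ i, c i * u i)) := by
  classical
  intro hsm
  have hu0 : ∀ i, u i ≠ 0 := fun i => (hu i).ne_zero
  let R : Setoid ι := rel u hu0
  let Q := Quotient R
  let o : Q → ι := Quotient.out
  have ho : ∀ q : Q, (Quotient.mk R (o q)) = q := fun q => Quotient.out_eq q
  have hall : ¬ ∀ i j : ι, (show G k (big u) from u i / u j) ∈ FF k (big u) := fun hall =>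
    hne a b hab (ff_of_big u hall a b)
  push Not at hall
  obtain ⟨a', b', hab'⟩ := hall
  let q0 : Q := Quotient.mk R a'
  let q1 : Q := Quotient.mk R b'
  have hq01 : q0 ≠ q1 := fun h => hab' (Quotient.exact h)
  let cc : Q → G k σ := fun q => ∑ i : {i // Quotient.mk R i = q}, c i.1 * (u i.1 / u (o q))
  have hcc : ∀ q, (show G k (big u) from cc q) ∈ FF k (big u) := by
    intro q
    refine (FF k (big u)).sum_mem fun i _ => ?_
    refine (FF k (big u)).mul_mem (ff_big _ (hc i.1)) ?_
    have h1 : Quotient.mk R i.1 = Quotient.mk R (o q) := by rw [ho q]; exact i.2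
    exact Quotient.exact h1
  have hccsum : ∀ q, cc q * u (o q) = ∑ i : {i // Quotient.mk R i = q}, c i.1 * u i.1 := by
    intro q
    rw [Finset.sum_mul]
    refine Finset.sum_congr rfl fun i _ => ?_
    rw [mul_assoc, div_mul_cancel₀ _ (hu0 _)]
  have hcc0 : ∀ q, cc q ≠ 0 := by
    intro q h0
    have h1 := hccsum q
    rw [h0, zero_mul] at h1
    exact hc0 (o q) (sui' hS _ (ι := {i // Quotient.mk R i = q}) le_rfl (fun i => u i.1)
      (fun i => hu _) (fun i j hij => hne _ _ fun h => hij (Subtype.ext h)) (fun i => c i.1)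
      (fun i => hc _) h1.symm ⟨o q, ho q⟩)
  have htot : ∑ q, cc q * (u (o q) / u (o q0)) = (∑ i, c i * u i) / u (o q0) := by
    have h1 : ∑ q, cc q * (u (o q) / u (o q0)) = (∑ q, cc q * u (o q)) / u (o q0) := by
      rw [Finset.sum_div]
      exact Finset.sum_congr rfl fun q _ => by rw [mul_div_assoc]
    rw [h1]
    have h2 : ∑ q, cc q * u (o q) = ∑ i, c i * u i := by
      rw [Finset.sum_congr rfl fun q _ => hccsum q]
      exact sum_fiber (fun i : ι => (Quotient.mk R i : Q)) (fun i => c i * u i)
    rw [h2]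
  have key := nonunitB (σ := big u) hS (ι := Q)
    (fun q => (show G k (big u) from u (o q) / u (o q0)))
    (fun q => (hu _).div (hu _)) (fun q => bb_big _ (Eventually.of_forall fun t => le_hq u _ _ t))
    (by
      intro q q' hqq' h
      apply hqq'
      rw [← ho q, ← ho q']
      apply Quotient.sound
      have h1 : (u (o q) / u (o q0)) / (u (o q') / u (o q0)) = u (o q) / u (o q') := by
        have := hu0 (o q0)
        have := hu0 (o q')
        field_simp
      have h2 : (show G k (big u) from (u (o q) / u (o q0)) / (u (o q') / u (o q0))) ∈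
          FF k (big u) := h
      rw [h1] at h2
      exact h2)
    (fun q => (show G k (big u) from cc q)) hcc hcc0 q0 q1 hq01
  apply key
  have h3 : Sm σ (ns S ((∑ i, c i * u i) / u (o q0))) := by
    refine hsm.mono ?_
    filter_upwards [rep_div (∑ i, c i * u i) (u (o q0)), hu (o q0)] with t h4 h5
    unfold ns lv
    rw [h4]
    by_cases h0 : rep (∑ i, c i * u i) t = 0
    · rw [h0, zero_div]
    · have h6 : ∀ v ∈ S, wt v * Real.log (av v (rep (∑ i, c i * u i) t / rep (u (o q0)) t)) =
          wt v * Real.log (av v (rep (∑ i, c i * u i) t)) -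
            wt v * Real.log (av v (rep (u (o q0)) t)) := by
        intro v _
        rw [map_div₀, Real.log_div ((av v).ne_zero h0) ((av v).ne_zero h5.1), mul_sub]
      rw [Finset.sum_congr rfl h6, Finset.sum_sub_distrib, h5.prod_formula hS, sub_zero]
  have h7 := sm_big (hq_nonneg u) h3
  rw [← htot] at h7
  exact h7

end Pool.Agent.D0H85.SP
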